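import Pool.Agent.Lib.MP_b8d9b4_co.Top.Stm

/-!
# MP_b8d9b4_co: from integer coordinates to `Fin n × Fin n`
-/

set_option autoImplicit false

namespace Pool.Agent.MP_b8d9b4_co.Top

/-- the coordinates of a vertex -/
def tr_e (n : ℕ) (p : Fin n × Fin n) : Sq := (((p.1 : ℕ) : ℤ) + 1, ((p.2 : ℕ) : ℤ) + 1)

theorem tr_e_inj (n : ℕ) : Function.Injective (tr_e n) := by
  intro p q h
  unfold tr_e at h
  have h1 := congrArg Prod.fst h
  have h2 := congrArg Prod.snd h
  simp only at h1 h2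
  apply Prod.ext
  · apply Fin.ext
    omega
  · apply Fin.ext
    omega

theorem tr_e_mem (n : ℕ) (p : Fin n × Fin n) : tr_e n p ∈ board (n : ℤ) := by
  rw [mem_board]
  have h1 := p.1.isLt
  have h2 := p.2.isLt
  unfold tr_e
  simp only
  omega

theorem tr_e_surj (n : ℕ) (v : Sq) (hv : v ∈ board (n : ℤ)) : ∃ p, tr_e n p = v := by
  rw [mem_board] at hv
  obtain ⟨a1, a2, a3, a4⟩ := hv
  refine ⟨(⟨(v.1 - 1).toNat, by omega⟩, ⟨(v.2 - 1).toNat, by omega⟩), ?_⟩
  unfold tr_e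
  apply Prod.ext
  · simp only
    omega
  · simp only
    omega

theorem tr_att (n : ℕ) (p q : Fin n × Fin n) :
    att (tr_e n p) (tr_e n q) ↔ InNbhd (queensGraph n) p q := by
  constructor
  · rintro ⟨X, hX⟩
    by_cases hpq : q = p
    · exact Or.inl hpq
    refine Or.inr ⟨fun h => hpq h.symm, ?_⟩
    fin_cases X
    · left
      apply Fin.ext
      simp only [lv, tr_e] at hX
      omega
    · right; left
      apply Fin.ext
      simp only [lv, tr_e] at hX
      omega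
    · right; right
      simp only [lv, tr_e] at hX
      have : ((p.1 : ℕ) : ℤ) - ((q.1 : ℕ) : ℤ) = ((p.2 : ℕ) : ℤ) - ((q.2 : ℕ) : ℤ) := by omega
      rw [this]
    · right; right
      simp only [lv, tr_e] at hX
      have : ((p.1 : ℕ) : ℤ) - ((q.1 : ℕ) : ℤ) = -(((p.2 : ℕ) : ℤ) - ((q.2 : ℕ) : ℤ)) := by omega
      rw [this, abs_neg]
  · rintro (h | ⟨_, h | h | h⟩)
    · exact ⟨0, by rw [h]⟩
    · exact ⟨0, by simp only [lv, tr_e]; rw [h]⟩
    · exact ⟨1, by simp only [lv, tr_e]; rw [h]⟩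
    · rcases abs_eq_abs.mp h with h | h
      · refine ⟨2, ?_⟩
        simp only [lv, tr_e]
        omega
      · refine ⟨3, ?_⟩
        simp only [lv, tr_e]
        omega

theorem p_tr : S_tr := by
  classical
  intro n S hS
  obtain ⟨⟨hsub, hdom⟩, hpriv⟩ := hS
  set S' : Finset (Fin n × Fin n) := Finset.univ.filter (fun p => tr_e n p ∈ S) with hS'
  have hmem : ∀ p, p ∈ S' ↔ tr_e n p ∈ S := by
    intro p
    rw [hS', Finset.mem_filter]
    exact ⟨fun h => h.2, fun h => ⟨Finset.mem_univ _, h⟩⟩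
  have himg : S'.image (tr_e n) = S := by
    ext v
    rw [Finset.mem_image]
    constructor
    · rintro ⟨p, hp, rfl⟩
      exact (hmem p).mp hp
    · intro hv
      obtain ⟨p, rfl⟩ := tr_e_surj n v (hsub hv)
      exact ⟨p, (hmem p).mpr hv, rfl⟩
  have hcard : S'.card = S.card := by
    rw [← himg, Finset.card_image_of_injective _ (tr_e_inj n)]
  refine ⟨S', ?_, hcard⟩
  have hD : IsDominating (queensGraph n) S' := by
    intro w
    obtain ⟨q, hq, hatt⟩ := hdom (tr_e n w) (tr_e_mem n w)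
    obtain ⟨p, rfl⟩ := tr_e_surj n q (hsub hq)
    exact ⟨p, (hmem p).mpr hq, (tr_att n p w).mp hatt⟩
  refine ⟨hD, ?_⟩
  intro T hT hTS
  show S' ⊆ T
  intro p hp
  obtain ⟨v, hv, hpv, hno⟩ := hpriv (tr_e n p) ((hmem p).mp hp)
  obtain ⟨w, rfl⟩ := tr_e_surj n v hv
  obtain ⟨u, hu, huw⟩ := hT w
  have huS : tr_e n u ∈ S := (hmem u).mp (hTS hu)
  by_contra hpT
  have hne : tr_e n u ≠ tr_e n p := by
    intro h
    have := tr_e_inj n h
    rw [this] at hu
    exact hpT hu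
  exact hno _ huS hne ((tr_att n u w).mpr huw)

end Pool.Agent.MP_b8d9b4_co.Top
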