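import Pool.Agent.Lib.MP_b8d9b4_co.Top.Stm

/-!
# MP_b8d9b4_co, piece H: the diagonals of the merged queens (helper11)
-/

set_option autoImplicit false

namespace Pool.Agent.MP_b8d9b4_co.Top

private theorem H_small {p m : ℤ} (hp : 1000 < p) (h0 : 0 < m) (h1 : m ≤ 600) : ¬ p ∣ m := by
  intro h
  have := Int.le_of_dvd h0 h
  omega

private theorem H_mphi0 (e n : ℤ) (u : Sq) :
    u ∈ Phi0B e n ↔ u ∈ PhiB e n ∧ u.2 < 2 * KK e := by
  unfold Phi0B
  generalize PhiB e n = Phi
  rw [Finset.mem_filter]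

/-- PIECE H -/
theorem p_H (h1 : S_crt) (h2 : S_pos) (h3 : S_mown) (h4 : S_mphi) : S_H := by
  intro e n t he hKt htn
  have h4' := h4 e n
  have h5' := H_mphi0 e n
  clear h4
  generalize PhiB e n = Phi at *
  generalize Phi0B e n = Phi0 at *
  intro u hu hu0 v hv hlv
  obtain ⟨hex, huniq, htwo⟩ := h1 e (by omega)
  obtain ⟨j, hj1, hj2, hKr, hrn, hP2, hP1, hP3, hc⟩ := (h4' u).1 hu
  have hr2 : 2 * KK e ≤ u.2 := by
    by_contra hlt
    apply hu0
    exact (h5' u).2 ⟨hu, by omega⟩
  have hp1 : 1000 < p1 e := by unfold p1; omega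
  have hp2 : 1000 < p2 e := by unfold p2; omega
  have hp3 : 1000 < p3 e := by unfold p3; omega
  have hKdef : KK e = p1 e * p2 e * p3 e := rfl
  have hp13 : 0 < p1 e * p3 e := mul_pos (by omega) (by omega)
  have hKpos : 0 < KK e := by
    rw [hKdef]
    exact mul_pos (mul_pos (by omega) (by omega)) (by omega)
  have hjK : 2 * (p1 e * p3 e) * j ≤ KK e := by
    have h5 : 0 ≤ (p1 e * p3 e) * (p2 e - 2 * j) :=
      mul_nonneg hp13.le (by omega)
    rw [hKdef]
    nlinarith
  have hj0 : 0 ≤ 2 * (p1 e * p3 e) * j := by positivity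
  have h13 : p1 e * p3 e = p2 e * (p2 e + 6) + 8 := by
    unfold p1 p2 p3
    ring
  have hs2 : p2 e ∣ u.1 + u.2 := by
    have h5 : u.1 + u.2 = 2 * (u.2 + 8 * j) + p2 e * (2 * (p2 e + 6) * j) := by
      rw [hc, h13]
      ring
    rw [h5]
    exact dvd_add (Dvd.dvd.mul_left hP2 _) (Dvd.intro _ rfl)
  -- the own lines
  have hOO : ∀ w : ℤ, p1 e ∣ w - u.2 → p3 e ∣ w - 2 * u.2 → ∀ m : ℤ, p2 e ∣ w - m → ¬ p2 e ∣ m →
      OO e w := by
    intro w hw1 hw3 m hw2 hm
    refine ⟨fun h => hP1 ?_, fun h => hm ?_, fun h => hP3 ?_⟩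
    · have := dvd_sub h hw1
      rwa [sub_sub_cancel] at this
    · have := dvd_sub h hw2
      rwa [sub_sub_cancel] at this
    · have := dvd_sub h hw3
      rw [sub_sub_cancel] at this
      exact (htwo _).2.2 this
  rcases hlv with hlv | hlv
  · -- the diagonal
    right; right
    obtain ⟨r0, hr0, hr0', hd1, hd2, hd3⟩ := hex 1 (-(8 * j)) 1 (KK e)
    rw [sub_neg_eq_add] at hd2
    refine ⟨(r0 + 2 * (p1 e * p3 e) * j, r0), ?_, 2, ?_⟩
    · refine (h5' _).2 ⟨(h4' _).2 ⟨j, hj1, hj2, hr0, ?_, hd2, ?_, ?_, rfl⟩, ?_⟩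
      · show r0 ≤ n - 2 * KK e
        omega
      · intro h
        have := dvd_sub h hd1
        rw [sub_sub_cancel] at this
        exact H_small hp1 (by norm_num) (by norm_num) this
      · intro h
        have := dvd_sub h hd3
        rw [sub_sub_cancel] at this
        exact H_small hp3 (by norm_num) (by norm_num) this
      · show r0 < 2 * KK e
        omega
    · rw [hlv]
      show r0 + 2 * (p1 e * p3 e) * j - r0 = u.1 - u.2
      rw [hc]
      ring
  · -- the antidiagonal
    right; left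
    have hlv' : v.1 + v.2 = u.1 + u.2 := hlv
    by_cases hs : u.1 + u.2 ≤ n + 1
    · obtain ⟨x, hx, hx', hd1, hd2, hd3⟩ := hex u.2 (-8) 0 1
      rw [sub_neg_eq_add] at hd2
      rw [sub_zero] at hd3
      have hw2 : p2 e ∣ (u.1 + u.2 - x) - 8 := by
        have := dvd_sub hs2 hd2
        have h5 : u.1 + u.2 - x - 8 = u.1 + u.2 - (x + 8) := by ring
        rwa [h5]
      have hw1 : p1 e ∣ (u.1 + u.2 - x) - u.2 := by
        have h5 : u.1 + u.2 - x - u.2 = p1 e * (2 * p3 e * j) - (x - u.2) := by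
          rw [hc]
          ring
        rw [h5]
        exact dvd_sub (Dvd.intro _ rfl) hd1
      have hw3 : p3 e ∣ (u.1 + u.2 - x) - 2 * u.2 := by
        have h5 : u.1 + u.2 - x - 2 * u.2 = p3 e * (2 * p1 e * j) - x := by
          rw [hc]
          ring
        rw [h5]
        exact dvd_sub (Dvd.intro _ rfl) hd3
      have hO : OO e (u.1 + u.2 - x) := hOO _ hw1 hw3 8 hw2 (H_small hp2 (by norm_num) (by norm_num))
      have hb : 1 ≤ u.1 + u.2 - x ∧ u.1 + u.2 - x ≤ n := by
        constructor <;> omega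
      refine ⟨(1, u.1 + u.2 - x), (h3 e n t 1 _).2 ⟨hO, hb⟩, ?_, ?_⟩
      · intro u' hu'
        obtain ⟨j', hj1', hj2', -, -, hP2', -, -, -⟩ := (h4' u').1 hu'
        refine ⟨fun h => absurd (congrArg Prod.fst h) (show ¬ ((1 : Fin 4) = 0) by decide), fun h => ?_⟩
        have h5 : u.1 + u.2 - x = u'.2 := congrArg Prod.snd h
        rw [h5] at hw2
        have h6 := dvd_sub hP2' hw2
        have h7 : u'.2 + 8 * j' - (u'.2 - 8) = 8 * (j' + 1) := by ring
        rw [h7] at h6
        exact H_small hp2 (by omega) (by omega) h6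
      · obtain ⟨hqb, hq1, hq⟩ := h2 e n (by omega) (by omega) (1, u.1 + u.2 - x) hb
        generalize bb e n (1, u.1 + u.2 - x) = q at hqb hq1 hq ⊢
        rw [mem_board] at hqb
        obtain ⟨hqK, hq3, hq1', hq2'⟩ : q.1 ≤ KK e ∧ p3 e ∣ q.1 ∧ p1 e ∣ q.1 - q.2 ∧
          p2 e ∣ q.1 + q.2 := hq
        have hq2 : q.2 = u.1 + u.2 - x := hq1
        rw [hq2] at hq1' hq2'
        have hqx : q.1 = x := by
          apply huniq
          · rw [abs_lt]
            constructor <;> omega
          · have h5 : q.1 - x = (q.1 - (u.1 + u.2 - x)) + ((u.1 + u.2 - x) - u.2) - (x - u.2) := by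
              ring
            rw [h5]
            exact dvd_sub (dvd_add hq1' hw1) hd1
          · have h5 : q.1 - x = (q.1 + (u.1 + u.2 - x)) - ((u.1 + u.2 - x) - 8) - (x + 8) := by
              ring
            rw [h5]
            exact dvd_sub (dvd_sub hq2' hw2) hd2
          · exact dvd_sub hq3 hd3
        refine ⟨3, ?_⟩
        show q.1 + q.2 = v.1 + v.2
        rw [hqx, hq2, hlv']
        ring
    · obtain ⟨y, hy, hy', hd1, hd2, hd3⟩ := hex u.2 8 0 (n - KK e + 1)
      rw [sub_zero] at hd3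
      have hw2 : p2 e ∣ (u.1 + u.2 - y) - (-8) := by
        have := dvd_sub hs2 hd2
        have h5 : u.1 + u.2 - y - (-8) = u.1 + u.2 - (y - 8) := by ring
        rwa [h5]
      have hw1 : p1 e ∣ (u.1 + u.2 - y) - u.2 := by
        have h5 : u.1 + u.2 - y - u.2 = p1 e * (2 * p3 e * j) - (y - u.2) := by
          rw [hc]
          ring
        rw [h5]
        exact dvd_sub (Dvd.intro _ rfl) hd1
      have hw3 : p3 e ∣ (u.1 + u.2 - y) - 2 * u.2 := by
        have h5 : u.1 + u.2 - y - 2 * u.2 = p3 e * (2 * p1 e * j) - y := by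
          rw [hc]
          ring
        rw [h5]
        exact dvd_sub (Dvd.intro _ rfl) hd3
      have hO : OO e (u.1 + u.2 - y) := hOO _ hw1 hw3 (-8) hw2 (fun h =>
        H_small hp2 (by norm_num) (by norm_num) ((dvd_neg (a := p2 e) (b := 8)).1 h))
      have hb : 1 ≤ u.1 + u.2 - y ∧ u.1 + u.2 - y ≤ n := by
        rw [hc]
        rw [hc] at hs
        constructor <;> omega
      refine ⟨(0, u.1 + u.2 - y), (h3 e n t 0 _).2 ⟨hO, hb⟩, ?_, ?_⟩
      · intro u' hu'
        obtain ⟨j', hj1', hj2', -, -, hP2', -, -, hc'⟩ := (h4' u').1 hu'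
        refine ⟨fun h => ?_, fun h => absurd (congrArg Prod.fst h)
          (show ¬ ((0 : Fin 4) = 1) by decide)⟩
        have h5 : u.1 + u.2 - y = u'.1 := congrArg Prod.snd h
        rw [h5] at hw2
        have h6 := dvd_sub hw2 hP2'
        have h7 : u'.1 - -8 - (u'.2 + 8 * j') = 8 * (j' + 1) + p2 e * (2 * (p2 e + 6) * j') := by
          rw [hc', h13]
          ring
        rw [h7] at h6
        exact H_small hp2 (by omega) (by omega) ((dvd_add_left (Dvd.intro _ rfl)).1 h6)
      · obtain ⟨hqb, hq1, hq⟩ := h2 e n (by omega) (by omega) (0, u.1 + u.2 - y) hb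
        generalize bb e n (0, u.1 + u.2 - y) = q at hqb hq1 hq ⊢
        rw [mem_board] at hqb
        obtain ⟨hqK, hq3, hq1', hq2'⟩ : n - KK e < q.2 ∧ p3 e ∣ q.2 ∧ p1 e ∣ q.1 - q.2 ∧
          p2 e ∣ q.1 + q.2 := hq
        have hq2 : q.1 = u.1 + u.2 - y := hq1
        rw [hq2] at hq1' hq2'
        have hqy : q.2 = y := by
          apply huniq
          · rw [abs_lt]
            constructor <;> omega
          · have h5 : q.2 - y = ((u.1 + u.2 - y) - u.2) - ((u.1 + u.2 - y) - q.2) - (y - u.2) := by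
              ring
            rw [h5]
            exact dvd_sub (dvd_sub hw1 hq1') hd1
          · have h5 : q.2 - y = ((u.1 + u.2 - y) + q.2) - ((u.1 + u.2 - y) - (-8)) - (y - 8) := by
              ring
            rw [h5]
            exact dvd_sub (dvd_sub hq2' hw2) hd2
          · exact dvd_sub hq3 hd3
        refine ⟨3, ?_⟩
        show q.1 + q.2 = v.1 + v.2
        rw [hqy, hq2, hlv']
        ring

end Pool.Agent.MP_b8d9b4_co.Top
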