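import Pool.Agent.Lib.MP_b8d9b4_co.Top.Stm

/-!
# MP_b8d9b4_co, Top: piece cfg, the configuration
-/

set_option autoImplicit false

namespace Pool.Agent.MP_b8d9b4_co.Top

attribute [local irreducible] PhiB

private theorem cfg_FF (e : ℤ) (X : Fin 4) (v : ℤ) (h : OO e v) : ¬ FF e X v := by
  obtain ⟨h1, h2, h3⟩ := h
  intro hF
  fin_cases X
  · exact h1 hF.1
  · rcases hF.2 with h | h
    · exact h1 h.1
    · exact h2 h.2
  · rcases hF.2 with h | h
    · exact h2 h.1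
    · exact h3 h.2
  · exact h3 hF.1

theorem p_cfg (h1 : S_pos) (h2 : S_oth) (h3 : S_fpt) (h4 : S_mown) (h5 : S_mneed) (h6 : S_cov)
    (h7 : S_phi) (h8 : S_H) : S_cfg := by
  intro e n t he ht1 ht2
  have hK : 1 ≤ KK e := by
    have a1 : 0 < p1 e := by unfold p1; omega
    have a2 : 0 < p2 e := by unfold p2; omega
    have a3 : 0 < p3 e := by unfold p3; omega
    have : 0 < KK e := mul_pos (mul_pos a1 a2) a3
    omega
  have hn : 2 * KK e ≤ n := by omega
  have hown : ∀ (X : Fin 4) (v : ℤ), ((X, v) : Line) ∈ ownB e n t → OO e v := fun X v h =>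
    ((h4 e n t X v).1 h).1
  have hnE : ∀ (X : Fin 4) (v : ℤ), ¬ FF e X v → ¬ EE e t X v := fun X v h hE => h hE.1
  have hrng : ∀ l ∈ ownB e n t, Rng e n l := by
    rintro ⟨X, v⟩ hl
    have h := ((h4 e n t X v).1 hl).2
    fin_cases X
    · exact h
    · exact h
    · have h' : -(t - KK e) ≤ v ∧ v ≤ t - KK e := h
      show -(n - KK e) ≤ v ∧ v ≤ n - KK e
      omega
    · have h' : 2 * KK e + t - 1 - (t - KK e) ≤ v ∧ v ≤ 2 * KK e + t - 1 + (t - KK e) := h
      show KK e + 1 ≤ v ∧ v ≤ 2 * n - KK e + 1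
      omega
  have hrng' : ∀ l ∈ needB e n t, Rng e n l := by
    rintro ⟨X, v⟩ hl
    have h := ((h5 e n t X v).1 hl).2.2
    fin_cases X
    · exact h
    · exact h
    · have h' : -(t - 1) ≤ v ∧ v ≤ t - 1 := h
      show -(n - KK e) ≤ v ∧ v ≤ n - KK e
      omega
    · have h' : 2 * KK e ≤ v ∧ v ≤ 2 * KK e + 2 * (t - 1) := h
      show KK e + 1 ≤ v ∧ v ≤ 2 * n - KK e + 1
      omega
  have hpos : ∀ l, Rng e n l → Pos e n l (bb e n l) := fun l hl =>
    h1 e n (by omega) hn l hl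
  have hoth : ∀ l, Rng e n l → ∀ X, X ≠ l.1 → ((X, lv X (bb e n l)) : Line) ∉ ownB e n t ∧
      ¬ EE e t X (lv X (bb e n l)) := by
    intro l hl X hX
    obtain ⟨a1, a2⟩ := h2 e n l (bb e n l) (hpos l hl) X hX
    exact ⟨fun h => a1 (hown _ _ h), hnE _ _ a2⟩
  obtain ⟨hu1, hu2⟩ := h7 e n t he ht1 ht2
  have hum : ∀ u ∈ PhiB e n, u ∈ board n := by
    intro u hu
    obtain ⟨a1, -⟩ := hu1 u hu
    exact a1
  have huo : ∀ u ∈ PhiB e n, ((0, u.1) : Line) ∈ ownB e n t ∧ ((1, u.2) : Line) ∈ ownB e n t := by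
    intro u hu
    obtain ⟨-, a1, a2, -⟩ := hu1 u hu
    exact ⟨a1, a2⟩
  have hud : ∀ u ∈ PhiB e n, ∀ X, X ≠ 0 → X ≠ 1 → ((X, lv X u) : Line) ∉ ownB e n t ∧
      ¬ EE e t X (lv X u) := by
    intro u hu X hX0 hX1
    obtain ⟨-, -, -, a3⟩ := hu1 u hu
    exact a3 X hX0 hX1
  refine
    { ownE := ?_
      b_mem := ?_
      b_on := ?_
      b_oth := ?_
      priv := ?_
      z_mem := ?_
      z_oth := ?_
      cover := ?_
      u_mem := ?_
      u_own := ?_
      u_oth := ?_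
      u_inj := ?_
      sub := ?_
      H := ?_ }
  · rintro ⟨X, v⟩ hl
    exact hnE X v (cfg_FF e X v (hown X v hl))
  · intro l hl
    exact (hpos l (hrng l hl)).1
  · intro l hl
    exact (hpos l (hrng l hl)).2.1
  · intro l hl X hX
    exact hoth l (hrng l hl) X hX
  · intro l hl
    exact h3 e n t (by omega) ht1 ht2 l hl
  · intro z hz
    unfold ZB at hz
    rw [Finset.mem_image] at hz
    obtain ⟨l, hl, rfl⟩ := hz
    exact (hpos l (hrng' l hl)).1
  · intro z hz X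
    unfold ZB at hz
    rw [Finset.mem_image] at hz
    obtain ⟨l, hl, rfl⟩ := hz
    by_cases hX : X = l.1
    · subst hX
      have hon := (hpos l (hrng' l hl)).2.1
      rw [hon]
      obtain ⟨X, v⟩ := l
      obtain ⟨a1, a2, -⟩ := (h5 e n t X v).1 hl
      exact ⟨a1, a2⟩
    · exact hoth l (hrng' l hl) X hX
  · exact h6 e n t (by omega) ht1 ht2
  · exact fun u hu => hum u hu
  · exact fun u hu => huo u hu
  · exact fun u hu X hX0 hX1 => hud u hu X hX0 hX1
  · exact hu2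
  · unfold Phi0B
    exact Finset.filter_subset _ _
  · exact h8 e n t he ht1 ht2

end Pool.Agent.MP_b8d9b4_co.Top
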