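import Pool.Agent.Lib.MP_b8d9b4_co.Top.Stm

/-!
# MP_b8d9b4_co: counting multiples in an interval
-/

set_option autoImplicit false

namespace Pool.Agent.MP_b8d9b4_co.Top

private theorem cnt_card (p a b c : ℤ) (hp : 1 ≤ p) (hab : a ≤ b + 1) :
    (((Finset.Icc a b).filter (fun v => p ∣ v + c)).card : ℤ) =
      (b + c) / p - (a + c - 1) / p := by
  have h0 : 0 < p := by omega
  have e : (Finset.Icc a b).filter (fun v => p ∣ v + c) =
      (Finset.Icc ((a + c - 1) / p + 1) ((b + c) / p)).image (fun k => p * k - c) := by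
    ext v
    rw [Finset.mem_filter, Finset.mem_Icc, Finset.mem_image]
    constructor
    · rintro ⟨⟨h1, h2⟩, k, hk⟩
      refine ⟨k, ?_, by omega⟩
      rw [Finset.mem_Icc]
      constructor
      · have : (a + c - 1) / p < k := by
          rw [Int.ediv_lt_iff_lt_mul h0]
          rw [mul_comm k p, ← hk]
          omega
        omega
      · rw [Int.le_ediv_iff_mul_le h0, mul_comm k p, ← hk]
        omega
    · rintro ⟨k, hk, rfl⟩
      rw [Finset.mem_Icc] at hk
      have h1 : (a + c - 1) / p < k := by omega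
      rw [Int.ediv_lt_iff_lt_mul h0, mul_comm k p] at h1
      have h2 := hk.2
      rw [Int.le_ediv_iff_mul_le h0, mul_comm k p] at h2
      refine ⟨⟨by omega, by omega⟩, k, by ring⟩
  rw [e, Finset.card_image_of_injective, Int.card_Icc]
  · have h1 : (a + c - 1) / p ≤ (b + c) / p := Int.ediv_le_ediv h0 (by omega)
    omega
  · intro x y hxy
    have h1 : p * x = p * y := by
      have : p * x - c = p * y - c := hxy
      omega
    exact mul_left_cancel₀ h0.ne' h1

theorem p_cnt : S_cnt := by
  have h1 : ∀ p a b c : ℤ, 1 ≤ p → a ≤ b + 1 →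
      (((Finset.Icc a b).filter (fun v => p ∣ v + c)).card : ℤ) * p ≤ (b - a + 1) + p ∧
      (b - a + 1) ≤ (((Finset.Icc a b).filter (fun v => p ∣ v + c)).card : ℤ) * p + (p - 1) := by
    intro p a b c hp hab
    have h0 : 0 < p := by omega
    rw [cnt_card p a b c hp hab, sub_mul]
    have e1 := Int.mul_ediv_add_emod (b + c) p
    have e2 := Int.mul_ediv_add_emod (a + c - 1) p
    have e3 := Int.emod_nonneg (b + c) h0.ne'
    have e4 := Int.emod_lt_of_pos (b + c) h0
    have e5 := Int.emod_nonneg (a + c - 1) h0.ne'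
    have e6 := Int.emod_lt_of_pos (a + c - 1) h0
    rw [mul_comm] at e1 e2
    constructor <;> linarith
  refine ⟨h1, ?_⟩
  intro e a b he hab s hs hO
  have key : ∀ q : ℤ, p2 e ≤ q →
      (((Finset.Icc a b).filter (fun v => q ∣ v + 0)).card : ℤ) * p2 e ≤ (b - a + 1) + p2 e := by
    intro q hq
    have hp2 : 3 ≤ p2 e := by unfold p2; omega
    have h2 := (h1 q a b 0 (by omega) hab).1
    rcases Nat.eq_zero_or_pos ((Finset.Icc a b).filter (fun v => q ∣ v + 0)).card with h3 | h3
    · rw [h3]
      push_cast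
      linarith
    · have h4 : (1 : ℤ) ≤ (((Finset.Icc a b).filter (fun v => q ∣ v + 0)).card : ℤ) := by
        exact_mod_cast h3
      have h5 := mul_le_mul_of_nonneg_left hq (sub_nonneg.2 h4)
      linarith
  have hsub : s ⊆ (Finset.Icc a b).filter (fun v => p1 e ∣ v + 0) ∪
      ((Finset.Icc a b).filter (fun v => p2 e ∣ v + 0) ∪
        (Finset.Icc a b).filter (fun v => p3 e ∣ v + 0)) := by
    intro v hv
    have h2 := hO v hv
    unfold OO at h2
    have h3 := hs hv
    simp only [Finset.mem_union, Finset.mem_filter, add_zero]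
    tauto
  have hc := (Finset.card_le_card hsub).trans ((Finset.card_union_le _ _).trans
    (Nat.add_le_add_left (Finset.card_union_le _ _) _))
  have hc' : (s.card : ℤ) ≤ (((Finset.Icc a b).filter (fun v => p1 e ∣ v + 0)).card : ℤ) +
      ((((Finset.Icc a b).filter (fun v => p2 e ∣ v + 0)).card : ℤ) +
        (((Finset.Icc a b).filter (fun v => p3 e ∣ v + 0)).card : ℤ)) := by
    exact_mod_cast hc
  have hp2 : 3 ≤ p2 e := by unfold p2; omega
  have k1 := key (p1 e) (by unfold p1 p2; omega)
  have k2 := key (p2 e) le_rfl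
  have k3 := key (p3 e) (by unfold p3 p2; omega)
  have h6 := mul_le_mul_of_nonneg_right hc' (show 0 ≤ p2 e by omega)
  linarith

end Pool.Agent.MP_b8d9b4_co.Top
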