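import Pool.Agent.Lib.MP_b8d9b4_co.Top.Stm

/-!
# MP_b8d9b4_co, piece core: intermediate sizes between two configurations
-/

set_option autoImplicit false

namespace Pool.Agent.MP_b8d9b4_co.Top

private theorem core_01 {x y : ℤ} (e : ((0, x) : Line) = (1, y)) : False := by
  simp at e

private theorem core_10 {x y : ℤ} (e : ((1, x) : Line) = (0, y)) : False := by
  simp at e

private theorem core_snd {i : Fin 4} {x y : ℤ} (e : ((i, x) : Line) = (i, y)) : x = y :=
  (Prod.mk.inj e).2

section

variable {n : ℤ} {own : Finset Line} {E : Fin 4 → ℤ → Prop} {b : Line → Sq}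
  {Z Phi Phi0 : Finset Sq}

/-- the configuration with the merged queens `M` -/
private noncomputable def core_X (own : Finset Line) (b : Line → Sq) (Z M : Finset Sq) :
    Finset Sq := by
  classical
  exact M ∪ Z ∪ (own.filter (fun l => ∀ u ∈ M, l ≠ (0, u.1) ∧ l ≠ (1, u.2))).image b

private theorem core_mem {M : Finset Sq} {q : Sq} : q ∈ core_X own b Z M ↔
    q ∈ M ∨ q ∈ Z ∨ ∃ l ∈ own, (∀ u ∈ M, l ≠ (0, u.1) ∧ l ≠ (1, u.2)) ∧ b l = q := by
  classical
  unfold core_X
  simp only [Finset.mem_union, Finset.mem_image, Finset.mem_filter]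
  constructor
  · rintro ((h | h) | ⟨l, ⟨h1, h2⟩, h3⟩)
    · exact Or.inl h
    · exact Or.inr (Or.inl h)
    · exact Or.inr (Or.inr ⟨l, h1, h2, h3⟩)
  · rintro (h | h | ⟨l, h1, h2, h3⟩)
    · exact Or.inl (Or.inl h)
    · exact Or.inl (Or.inr h)
    · exact Or.inr ⟨l, ⟨h1, h2⟩, h3⟩

/-- a merged queen lies on two own lines -/
private theorem core_u (C : Cfg n own E b Z Phi Phi0) {u : Sq} (hu : u ∈ Phi) {l : Line}
    (hl : l ∈ own) (h : lv l.1 u = l.2) : l = (0, u.1) ∨ l = (1, u.2) := by
  obtain ⟨X, v⟩ := l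
  change lv X u = v at h
  subst h
  by_cases h0 : X = 0
  · subst h0
    exact Or.inl rfl
  · by_cases h1 : X = 1
    · subst h1
      exact Or.inr rfl
    · exact absurd hl (C.u_oth u hu X h0 h1).1

/-- the queen of a line lies on no other own line -/
private theorem core_b (C : Cfg n own E b Z Phi Phi0) {l l' : Line}
    (hl : l ∈ own) (hl' : l' ∈ own) (h : lv l.1 (b l') = l.2) : l' = l := by
  by_cases h1 : l.1 = l'.1
  · apply Prod.ext h1.symm
    rw [← C.b_on l' hl', ← h1, h]
  · exfalso
    apply (C.b_oth l' hl' l.1 h1).1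
    rw [h]
    exact hl

private theorem core_on (C : Cfg n own E b Z Phi Phi0) {M : Finset Sq} (hM : M ⊆ Phi) {l : Line}
    (hl : l ∈ own) {q : Sq} (hq : q ∈ core_X own b Z M) (h : lv l.1 q = l.2) :
    (q = b l ∧ ∀ u ∈ M, l ≠ (0, u.1) ∧ l ≠ (1, u.2)) ∨
    (q ∈ M ∧ (l = (0, q.1) ∨ l = (1, q.2))) := by
  rcases core_mem.1 hq with hq | hq | ⟨l', hl', hu, rfl⟩
  · exact Or.inr ⟨hq, core_u C (hM hq) hl h⟩
  · exfalso
    apply (C.z_oth q hq l.1).1
    rw [h]
    exact hl
  · have := core_b C hl hl' h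
    subst this
    exact Or.inl ⟨rfl, hu⟩

private theorem core_uniq (C : Cfg n own E b Z Phi Phi0) {M : Finset Sq} (hM : M ⊆ Phi) {l : Line}
    (hl : l ∈ own) {q q' : Sq} (hq : q ∈ core_X own b Z M) (h : lv l.1 q = l.2)
    (hq' : q' ∈ core_X own b Z M) (h' : lv l.1 q' = l.2) : q = q' := by
  rcases core_on C hM hl hq h with ⟨e1, e2⟩ | ⟨e1, e2⟩
  · rcases core_on C hM hl hq' h' with ⟨e3, e4⟩ | ⟨e3, e4⟩
    · rw [e1, e3]
    · exfalso
      rcases e4 with e4 | e4
      · exact (e2 q' e3).1 e4
      · exact (e2 q' e3).2 e4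
  · rcases core_on C hM hl hq' h' with ⟨e3, e4⟩ | ⟨e3, e4⟩
    · exfalso
      rcases e2 with e2 | e2
      · exact (e4 q e1).1 e2
      · exact (e4 q e1).2 e2
    · by_contra hne
      have h5 := C.u_inj q (hM e1) q' (hM e3) hne
      rcases e2 with e2 | e2
      · rcases e4 with e4 | e4
        · rw [e2] at e4
          exact h5.1 (core_snd e4)
        · rw [e2] at e4
          exact core_01 e4
      · rcases e4 with e4 | e4
        · rw [e2] at e4
          exact core_10 e4
        · rw [e2] at e4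
          exact h5.2 (core_snd e4)

private theorem core_noE (C : Cfg n own E b Z Phi Phi0) {M : Finset Sq} (hM : M ⊆ Phi) {q : Sq}
    (hq : q ∈ core_X own b Z M) (X : Fin 4) : ¬ E X (lv X q) := by
  rcases core_mem.1 hq with hq | hq | ⟨l, hl, -, rfl⟩
  · by_cases h0 : X = 0
    · subst h0
      exact C.ownE _ (C.u_own q (hM hq)).1
    · by_cases h1 : X = 1
      · subst h1
        exact C.ownE _ (C.u_own q (hM hq)).2
      · exact (C.u_oth q (hM hq) X h0 h1).2
  · exact (C.z_oth q hq X).2
  · by_cases h1 : X = l.1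
    · subst h1
      rw [C.b_on l hl]
      exact C.ownE l hl
    · exact (C.b_oth l hl X h1).2

/-- a dominating subset contains a queen on every own line -/
private theorem core_line (C : Cfg n own E b Z Phi Phi0) {M : Finset Sq} (hM : M ⊆ Phi)
    {Y : Finset Sq} (hY : Y ⊆ core_X own b Z M) (hD : Dom n Y) {l : Line} (hl : l ∈ own) :
    ∃ q ∈ Y, lv l.1 q = l.2 := by
  obtain ⟨p, hp, hp1, hp2⟩ := C.priv l hl
  obtain ⟨q, hq, X, hX⟩ := hD.2 p hp
  refine ⟨q, hq, ?_⟩
  by_cases h1 : X = l.1
  · subst h1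
    rw [hX, hp1]
  · exfalso
    apply core_noE C hM (hY hq) X
    rw [hX]
    exact hp2 X h1

private theorem core_in (C : Cfg n own E b Z Phi Phi0) {M : Finset Sq} (hM : M ⊆ Phi)
    {Y : Finset Sq} (hY : Y ⊆ core_X own b Z M) (hD : Dom n Y) {l : Line} (hl : l ∈ own)
    {q : Sq} (hq : q ∈ core_X own b Z M) (h : lv l.1 q = l.2) : q ∈ Y := by
  obtain ⟨q', hq', h'⟩ := core_line C hM hY hD hl
  rw [core_uniq C hM hl hq h (hY hq') h']
  exact hq'

private theorem core_board (C : Cfg n own E b Z Phi Phi0) {M : Finset Sq} (hM : M ⊆ Phi) :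
    core_X own b Z M ⊆ board n := by
  intro q hq
  rcases core_mem.1 hq with hq | hq | ⟨l, hl, -, rfl⟩
  · exact C.u_mem q (hM hq)
  · exact C.z_mem q hq
  · exact C.b_mem l hl

private theorem core_ex (C : Cfg n own E b Z Phi Phi0) {M : Finset Sq} {l : Line}
    (hl : l ∈ own) : ∃ q ∈ core_X own b Z M, lv l.1 q = l.2 := by
  by_cases h : ∀ u ∈ M, l ≠ (0, u.1) ∧ l ≠ (1, u.2)
  · exact ⟨b l, core_mem.2 (Or.inr (Or.inr ⟨l, hl, h, rfl⟩)), C.b_on l hl⟩
  · push Not at h
    obtain ⟨u, hu, h⟩ := h
    refine ⟨u, core_mem.2 (Or.inl hu), ?_⟩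
    by_cases h0 : l = (0, u.1)
    · subst h0
      rfl
    · rw [h h0]
      rfl

private theorem core_dom (C : Cfg n own E b Z Phi Phi0) {M : Finset Sq} (hM : M ⊆ Phi) :
    Dom n (core_X own b Z M) := by
  refine ⟨core_board C hM, fun v hv => ?_⟩
  rcases C.cover v hv with ⟨X, hX⟩ | ⟨z, hz, h⟩
  · obtain ⟨q, hq, h⟩ := core_ex (Z := Z) (M := M) C hX
    exact ⟨q, hq, X, h⟩
  · exact ⟨z, core_mem.2 (Or.inr (Or.inl hz)), h⟩

/-- a minimal dominating subset -/
private theorem core_min {Y : Finset Sq} (hY : Dom n Y) :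
    ∃ S, S ⊆ Y ∧ MinDom n S := by
  classical
  obtain ⟨S, hS, hmin⟩ := Finset.exists_min_image (Y.powerset.filter (Dom n)) Finset.card
    ⟨Y, Finset.mem_filter.2 ⟨Finset.mem_powerset_self Y, hY⟩⟩
  rw [Finset.mem_filter, Finset.mem_powerset] at hS
  refine ⟨S, hS.1, hS.2, fun q hq => ?_⟩
  by_contra hne
  push Not at hne
  have h1 : S.erase q ∈ Y.powerset.filter (Dom n) := by
    rw [Finset.mem_filter, Finset.mem_powerset]
    refine ⟨(Finset.erase_subset _ _).trans hS.1, (Finset.erase_subset _ _).trans hS.2.1, ?_⟩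
    intro v hv
    obtain ⟨q1, hq1, ha⟩ := hS.2.2 v hv
    by_cases h : q1 = q
    · subst h
      obtain ⟨q', hq', hne', ha'⟩ := hne v hv ha
      exact ⟨q', Finset.mem_erase.2 ⟨hne', hq'⟩, ha'⟩
    · exact ⟨q1, Finset.mem_erase.2 ⟨h, hq1⟩, ha⟩
  have h2 := hmin _ h1
  have h3 := Finset.card_erase_lt_of_mem hq
  omega

/-- the step: unmerge one queen -/
private theorem core_step (C : Cfg n own E b Z Phi Phi0) {M : Finset Sq} (hM : M ⊆ Phi)
    (hM0 : Phi0 ⊆ M) {u : Sq} (hu : u ∈ M) (hu0 : u ∉ Phi0) {Y : Finset Sq}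
    (hY : Y ⊆ core_X own b Z M) (hD : Dom n Y) :
    ∃ Y', Y' ⊆ core_X own b Z (M.erase u) ∧ Dom n Y' ∧ Y'.card ≤ Y.card + 1 := by
  classical
  have huP := hM hu
  have hu1 := (C.u_own u huP).1
  have hu2 := (C.u_own u huP).2
  have huX : u ∈ core_X own b Z M := core_mem.2 (Or.inl hu)
  have huY : u ∈ Y := core_in C hM hY hD hu1 huX rfl
  have hsub : insert (b (0, u.1)) (insert (b (1, u.2)) (Y.erase u)) ⊆
      core_X own b Z (M.erase u) := by
    intro q hq
    rw [Finset.mem_insert, Finset.mem_insert, Finset.mem_erase] at hq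
    rcases hq with rfl | rfl | ⟨hne, hq⟩
    · refine core_mem.2 (Or.inr (Or.inr ⟨_, hu1, fun u' hu' => ?_, rfl⟩))
      rw [Finset.mem_erase] at hu'
      have h5 := C.u_inj u huP u' (hM hu'.2) hu'.1.symm
      exact ⟨fun e => h5.1 (core_snd e), core_01⟩
    · refine core_mem.2 (Or.inr (Or.inr ⟨_, hu2, fun u' hu' => ?_, rfl⟩))
      rw [Finset.mem_erase] at hu'
      have h5 := C.u_inj u huP u' (hM hu'.2) hu'.1.symm
      exact ⟨core_10, fun e => h5.2 (core_snd e)⟩
    · rcases core_mem.1 (hY hq) with h | h | ⟨l, hl, hu', rfl⟩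
      · exact core_mem.2 (Or.inl (Finset.mem_erase.2 ⟨hne, h⟩))
      · exact core_mem.2 (Or.inr (Or.inl h))
      · exact core_mem.2 (Or.inr (Or.inr ⟨l, hl,
          fun u' h' => hu' u' (Finset.mem_of_mem_erase h'), rfl⟩))
  refine ⟨_, hsub, ⟨hsub.trans (core_board C ((Finset.erase_subset _ _).trans hM)), ?_⟩, ?_⟩
  · intro v hv
    have hkeep : ∀ q ∈ Y, q ≠ u → att q v →
        ∃ q ∈ insert (b (0, u.1)) (insert (b (1, u.2)) (Y.erase u)), att q v := by
      intro q hq hne ha
      exact ⟨q, Finset.mem_insert_of_mem (Finset.mem_insert_of_mem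
        (Finset.mem_erase.2 ⟨hne, hq⟩)), ha⟩
    by_cases hown : ∃ X, ((X, lv X v) : Line) ∈ own
    · obtain ⟨X, hX⟩ := hown
      obtain ⟨q, hq, hql⟩ := core_line C hM hY hD hX
      by_cases hqu : q = u
      · subst hqu
        rcases core_u C huP hX hql with e | e
        · refine ⟨b (0, q.1), Finset.mem_insert_self _ _, X, ?_⟩
          rw [← e]
          exact C.b_on _ hX
        · refine ⟨b (1, q.2), Finset.mem_insert_of_mem (Finset.mem_insert_self _ _), X, ?_⟩
          rw [← e]
          exact C.b_on _ hX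
      · exact hkeep q hq hqu ⟨X, hql⟩
    · obtain ⟨q, hq, ha⟩ := hD.2 v hv
      by_cases hqu : q = u
      · subst hqu
        obtain ⟨X, hX⟩ := ha
        have hdiag : lv 2 v = lv 2 q ∨ lv 3 v = lv 3 q := by
          by_cases h0 : X = 0
          · subst h0
            exact absurd ⟨0, hX ▸ hu1⟩ hown
          · by_cases h1 : X = 1
            · subst h1
              exact absurd ⟨1, hX ▸ hu2⟩ hown
            · by_cases h2 : X = 2
              · subst h2
                exact Or.inl hX.symm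
              · have h3 : X = 3 := by omega
                subst h3
                exact Or.inr hX.symm
        rcases C.H q huP hu0 v hv hdiag with h | ⟨l, hl, hun, hat⟩ | ⟨u0, h0, hat⟩
        · exact absurd h hown
        · have hbX : b l ∈ core_X own b Z M :=
            core_mem.2 (Or.inr (Or.inr ⟨l, hl, fun u' h' => hun u' (hM h'), rfl⟩))
          have hbY := core_in C hM hY hD hl hbX (C.b_on l hl)
          refine hkeep _ hbY ?_ hat
          intro e
          have h6 : lv l.1 q = l.2 := by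
            rw [← e]
            exact C.b_on l hl
          rcases core_u C huP hl h6 with e' | e'
          · exact (hun q huP).1 e'
          · exact (hun q huP).2 e'
        · have h7 : u0 ∈ Y := core_in C hM hY hD (C.u_own u0 (C.sub h0)).1
            (core_mem.2 (Or.inl (hM0 h0))) rfl
          exact hkeep u0 h7 (fun e => hu0 (e ▸ h0)) hat
      · exact hkeep q hq hqu ha
  · have h1 := Finset.card_insert_le (b (0, u.1)) (insert (b (1, u.2)) (Y.erase u))
    have h2 := Finset.card_insert_le (b (1, u.2)) (Y.erase u)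
    have h3 := Finset.card_erase_add_one huY
    omega

/-- the upper bound for the number of queens when all are merged -/
private theorem core_card (C : Cfg n own E b Z Phi Phi0) :
    (core_X own b Z Phi).card + Phi.card ≤ own.card + Z.card := by
  classical
  set F := own.filter (fun l => ∀ u ∈ Phi, l ≠ (0, u.1) ∧ l ≠ (1, u.2)) with hF
  have h1 : (core_X own b Z Phi).card ≤ Phi.card + Z.card + F.card := by
    unfold core_X
    refine (Finset.card_union_le _ _).trans ?_
    refine Nat.add_le_add (Finset.card_union_le _ _) ?_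
    exact Finset.card_image_le
  set A := Phi.image (fun u => ((0, u.1) : Line))
  set B := Phi.image (fun u => ((1, u.2) : Line))
  have hA : A.card = Phi.card := by
    apply Finset.card_image_of_injOn
    intro u hu u' hu' e
    by_contra hne
    exact (C.u_inj u hu u' hu' hne).1 (core_snd e)
  have hB : B.card = Phi.card := by
    apply Finset.card_image_of_injOn
    intro u hu u' hu' e
    by_contra hne
    exact (C.u_inj u hu u' hu' hne).2 (core_snd e)
  have hAB : Disjoint A B := by
    rw [Finset.disjoint_left]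
    intro l hl hl'
    obtain ⟨u, -, rfl⟩ := Finset.mem_image.1 hl
    obtain ⟨u', -, e⟩ := Finset.mem_image.1 hl'
    exact core_10 e
  have hFAB : Disjoint F (A ∪ B) := by
    rw [Finset.disjoint_left]
    intro l hl hl'
    have h2 := (Finset.mem_filter.1 hl).2
    rcases Finset.mem_union.1 hl' with h | h
    · obtain ⟨u, hu, rfl⟩ := Finset.mem_image.1 h
      exact (h2 u hu).1 rfl
    · obtain ⟨u, hu, rfl⟩ := Finset.mem_image.1 h
      exact (h2 u hu).2 rfl
  have hsub : F ∪ (A ∪ B) ⊆ own := by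
    intro l hl
    rcases Finset.mem_union.1 hl with h | h
    · exact (Finset.mem_filter.1 h).1
    · rcases Finset.mem_union.1 h with h | h
      · obtain ⟨u, hu, rfl⟩ := Finset.mem_image.1 h
        exact (C.u_own u hu).1
      · obtain ⟨u, hu, rfl⟩ := Finset.mem_image.1 h
        exact (C.u_own u hu).2
  have h3 := Finset.card_le_card hsub
  rw [Finset.card_union_of_disjoint hFAB, Finset.card_union_of_disjoint hAB, hA, hB] at h3
  omega

/-- the lower bound for a dominating subset -/
private theorem core_low (C : Cfg n own E b Z Phi Phi0) {Y : Finset Sq}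
    (hY : Y ⊆ core_X own b Z Phi0) (hD : Dom n Y) : own.card ≤ Y.card + Phi0.card := by
  classical
  set B := Phi0.image (fun u => ((1, u.2) : Line)) with hB
  have hBc : B.card ≤ Phi0.card := Finset.card_image_le
  have h1 : own.card ≤ (own \ B).card + B.card := by
    have := Finset.card_sdiff_add_card own B
    have h2 := Finset.card_le_card (Finset.subset_union_left (s₁ := own) (s₂ := B))
    omega
  have h2 : (own \ B).card ≤ Y.card := by
    have hq : ∀ l : Line, ∃ q : Sq, l ∈ own → q ∈ Y ∧ lv l.1 q = l.2 := by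
      intro l
      by_cases hl : l ∈ own
      · obtain ⟨q, h⟩ := core_line C C.sub hY hD hl
        exact ⟨q, fun _ => h⟩
      · exact ⟨(0, 0), fun h => absurd h hl⟩
    choose q hq using hq
    refine Finset.card_le_card_of_injOn q (fun l hl => (hq l (Finset.mem_sdiff.1 hl).1).1) ?_
    intro l hl l' hl' e
    have hl := Finset.mem_sdiff.1 (Finset.mem_coe.1 hl)
    have hl' := Finset.mem_sdiff.1 (Finset.mem_coe.1 hl')
    have h3 := hq l hl.1
    have h4 := hq l' hl'.1
    have h5 := core_on C C.sub hl.1 (hY h3.1) h3.2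
    have h6 := core_on C C.sub hl'.1 (hY h4.1) h4.2
    rw [← e] at h6 h4
    rcases h5 with ⟨e1, -⟩ | ⟨e1, e2⟩
    · rw [e1] at h4
      exact core_b C hl'.1 hl.1 h4.2
    · rcases h6 with ⟨e3, -⟩ | ⟨e3, e4⟩
      · rw [e3] at h3
        exact (core_b C hl.1 hl'.1 h3.2).symm
      · rcases e2 with e2 | e2
        · rcases e4 with e4 | e4
          · rw [e2, e4]
          · exact absurd (Finset.mem_image.2 ⟨q l, e3, e4.symm⟩) hl'.2
        · exact absurd (Finset.mem_image.2 ⟨q l, e1, e2.symm⟩) hl.2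
  omega

end

theorem p_core : S_core := by
  classical
  intro n own E b Z Phi Phi0 C k hk1 hk2
  have key : ∀ T : Finset Sq, T ⊆ Phi \ Phi0 →
      (∃ S : Finset Sq, MinDom n S ∧ S.card = k) ∨
      ∃ Y, Y ⊆ core_X own b Z (Phi \ T) ∧ MinDom n Y ∧ Y.card < k := by
    intro T
    induction T using Finset.induction_on with
    | empty =>
      intro _
      rw [Finset.sdiff_empty]
      obtain ⟨S, hS, hm⟩ := core_min (core_dom C (Finset.Subset.refl Phi))
      have h1 := Finset.card_le_card hS
      have h2 := core_card C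
      rcases lt_or_ge S.card k with h | h
      · exact Or.inr ⟨S, hS, hm, h⟩
      · exact Or.inl ⟨S, hm, by omega⟩
    | insert u T huT ih =>
      intro hsub
      have hu := Finset.mem_sdiff.1 (hsub (Finset.mem_insert_self u T))
      have hT := (Finset.insert_subset_iff.1 hsub).2
      rcases ih hT with h | ⟨Y, hY, hm, hlt⟩
      · exact Or.inl h
      · have hM0 : Phi0 ⊆ Phi \ T := by
          intro x hx
          exact Finset.mem_sdiff.2 ⟨C.sub hx, fun h => (Finset.mem_sdiff.1 (hT h)).2 hx⟩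
        obtain ⟨Y', hY', hD', hc⟩ := core_step C Finset.sdiff_subset hM0
          (Finset.mem_sdiff.2 ⟨hu.1, huT⟩) hu.2 hY hm.1
        obtain ⟨S, hS, hSm⟩ := core_min hD'
        have h1 := Finset.card_le_card hS
        have e : Phi \ insert u T = (Phi \ T).erase u := by
          ext x
          simp only [Finset.mem_sdiff, Finset.mem_insert, Finset.mem_erase]
          tauto
        rw [e]
        rcases lt_or_ge S.card k with h | h
        · exact Or.inr ⟨S, hS.trans hY', hSm, h⟩
        · exact Or.inl ⟨S, hSm, by omega⟩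
  rcases key (Phi \ Phi0) (Finset.Subset.refl _) with h | ⟨Y, hY, hm, hlt⟩
  · exact h
  · exfalso
    rw [Finset.sdiff_sdiff_eq_self C.sub] at hY
    have h1 := core_low C hY hm.1
    omega

end Pool.Agent.MP_b8d9b4_co.Top
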