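import Pool.Agent.Lib.MP_b8d9b4_co.Top.Stm

/-!
# MP_b8d9b4_co, domination
-/

set_option autoImplicit false

namespace Pool.Agent.MP_b8d9b4_co.Top

lemma cov_KK_pos {e : ℤ} (he : 1 ≤ e) : 1 ≤ KK e := by
  unfold KK p1 p2 p3
  have h1 : 0 < (2 * e + 3) * (2 * e + 1) * (2 * e + 5) := by positivity
  omega

/-- a needed line through `v` gives an additional queen attacking `v` -/
lemma cov_need (h1 : S_pos) (h3 : S_mneed) {e n t : ℤ} (he : 1 ≤ e) (hKt : KK e ≤ t)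
    (htn : t ≤ n - 2 * KK e + 1) (v : Sq) (X : Fin 4)
    (hX : ((X, lv X v) : Line) ∈ needB e n t) : ∃ z ∈ ZB e n t, att z v := by
  have hK := cov_KK_pos he
  have hr := ((h3 e n t X (lv X v)).mp hX).2.2
  have hn : 2 * KK e ≤ n := by omega
  have hRng : Rng e n (X, lv X v) := by
    unfold Rng
    fin_cases X
    · simpa using hr
    · simpa using hr
    · simp only [Fin.reduceFinMk] at hr ⊢
      constructor <;> omega
    · simp only [Fin.reduceFinMk] at hr ⊢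
      constructor <;> omega
  have hP := h1 e n he hn (X, lv X v) hRng
  refine ⟨bb e n (X, lv X v), ?_, X, hP.2.1⟩
  unfold ZB
  exact Finset.mem_image_of_mem _ hX

theorem p_cov (h1 : S_pos) (h2 : S_free) (h3 : S_mneed) : S_cov := by
  intro e n t he hKt htn v hv
  have hK := cov_KK_pos he
  by_contra hcon
  rw [not_or] at hcon
  obtain ⟨hown, hz⟩ := hcon
  have hown' : ∀ X, ((X, lv X v) : Line) ∉ ownB e n t := fun X h => hown ⟨X, h⟩
  have hneed : ∀ X, ((X, lv X v) : Line) ∉ needB e n t := fun X h =>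
    hz (cov_need h1 h3 he hKt htn v X h)
  obtain ⟨b1, b2, b3, b4⟩ := mem_board.mp hv
  have e0 : EE e t 0 (lv 0 v) := by
    by_contra h
    exact hneed 0 ((h3 e n t 0 (lv 0 v)).mpr ⟨hown' 0, h, b1, b2⟩)
  have e1 : EE e t 1 (lv 1 v) := by
    by_contra h
    exact hneed 1 ((h3 e n t 1 (lv 1 v)).mpr ⟨hown' 1, h, b3, b4⟩)
  have w0 := e0.2 (Or.inl rfl)
  have w1 := e1.2 (Or.inr rfl)
  have l0 : lv 0 v = v.1 := rfl
  have l1 : lv 1 v = v.2 := rfl
  have l2 : lv 2 v = v.1 - v.2 := rfl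
  have l3 : lv 3 v = v.1 + v.2 := rfl
  rw [l0] at w0
  rw [l1] at w1
  have e2 : EE e t 2 (lv 2 v) := by
    by_contra h
    refine hneed 2 ((h3 e n t 2 (lv 2 v)).mpr ⟨hown' 2, h, ?_⟩)
    show -(t - 1) ≤ lv 2 v ∧ lv 2 v ≤ t - 1
    rw [l2]
    constructor <;> omega
  have e3 : EE e t 3 (lv 3 v) := by
    by_contra h
    refine hneed 3 ((h3 e n t 3 (lv 3 v)).mpr ⟨hown' 3, h, ?_⟩)
    show 2 * KK e ≤ lv 3 v ∧ lv 3 v ≤ 2 * KK e + 2 * (t - 1)
    rw [l3]
    constructor <;> omega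
  exact h2 e v.1 v.2 he e0.1 e1.1 e2.1 e3.1

end Pool.Agent.MP_b8d9b4_co.Top
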