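import Pool.Agent.Lib.MP_b8d9b4_co.Top.Stm

/-!
# MP_b8d9b4_co: the number of own lines
-/

set_option autoImplicit false

namespace Pool.Agent.MP_b8d9b4_co.Top

open Classical in
/-- The values of own lines in an interval. -/
noncomputable def cown_A (e a b : ℤ) : Finset ℤ := (Finset.Icc a b).filter (fun v => OO e v)

private theorem cown_inj (X : Fin 4) : Function.Injective (fun v : ℤ => ((X, v) : Line)) := by
  intro a b h
  exact (Prod.mk.inj h).2

private theorem cown_disj {X Y : Fin 4} (h : X ≠ Y) (s t : Finset ℤ) :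
    Disjoint (s.image (fun v => ((X, v) : Line))) (t.image (fun v => ((Y, v) : Line))) := by
  rw [Finset.disjoint_left]
  intro l hl hl'
  rw [Finset.mem_image] at hl hl'
  obtain ⟨v, _, hv⟩ := hl
  obtain ⟨w, _, hw⟩ := hl'
  exact h (Prod.mk.inj (hv.trans hw.symm)).1

private theorem cown_card (e n t : ℤ) : (ownB e n t).card =
    (cown_A e 1 n).card + (cown_A e 1 n).card + (cown_A e (-(t - KK e)) (t - KK e)).card +
      (cown_A e (2 * KK e + t - 1 - (t - KK e)) (2 * KK e + t - 1 + (t - KK e))).card := by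
  unfold ownB
  rw [Finset.card_union_of_disjoint, Finset.card_union_of_disjoint, Finset.card_union_of_disjoint,
    Finset.card_image_of_injective _ (cown_inj 0), Finset.card_image_of_injective _ (cown_inj 1),
    Finset.card_image_of_injective _ (cown_inj 2), Finset.card_image_of_injective _ (cown_inj 3)]
  · rfl
  · exact cown_disj (by decide) _ _
  · rw [Finset.disjoint_union_left]
    exact ⟨cown_disj (by decide) _ _, cown_disj (by decide) _ _⟩
  · rw [Finset.disjoint_union_left, Finset.disjoint_union_left]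
    exact ⟨⟨cown_disj (by decide) _ _, cown_disj (by decide) _ _⟩, cown_disj (by decide) _ _⟩

private theorem cown_mem (e a b v : ℤ) : v ∈ cown_A e a b ↔ (a ≤ v ∧ v ≤ b) ∧ OO e v := by
  classical
  unfold cown_A
  rw [Finset.mem_filter, Finset.mem_Icc]

private theorem cown_le (e a b : ℤ) (h : a ≤ b + 1) : ((cown_A e a b).card : ℤ) ≤ b + 1 - a := by
  have h1 : (cown_A e a b).card ≤ (Finset.Icc a b).card := by
    classical
    unfold cown_A
    exact Finset.card_filter_le _ _
  rw [Int.card_Icc] at h1
  omega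

private theorem cown_two (e a b a' b' x y : ℤ)
    (h : ∀ v, a' ≤ v → v ≤ b' → (a ≤ v ∧ v ≤ b) ∨ v = x ∨ v = y) :
    (cown_A e a' b').card ≤ (cown_A e a b).card + 2 := by
  have hs : cown_A e a' b' ⊆ cown_A e a b ∪ {x, y} := by
    intro v hv
    rw [cown_mem] at hv
    rw [Finset.mem_union, cown_mem, Finset.mem_insert, Finset.mem_singleton]
    rcases h v hv.1.1 hv.1.2 with h1 | h1 | h1
    · exact Or.inl ⟨h1, hv.2⟩
    · exact Or.inr (Or.inl h1)
    · exact Or.inr (Or.inr h1)
  have h1 := Finset.card_le_card hs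
  have h2 := Finset.card_union_le (cown_A e a b) {x, y}
  have h3 : ({x, y} : Finset ℤ).card ≤ 2 := Finset.card_le_two
  omega

private theorem cown_ge (hc : S_cnt) (e a b : ℤ) (he : 1 ≤ e) (h : a ≤ b + 1) :
    (b + 1 - a) * p2 e ≤ ((cown_A e a b).card : ℤ) * p2 e + 3 * ((b - a + 1) + p2 e) := by
  classical
  have h1 := hc.2 e a b he h ((Finset.Icc a b).filter (fun v => ¬ OO e v))
    (Finset.filter_subset _ _) (fun v hv => (Finset.mem_filter.1 hv).2)
  have h2 : (cown_A e a b).card + ((Finset.Icc a b).filter (fun v => ¬ OO e v)).card =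
      (Finset.Icc a b).card := by
    unfold cown_A
    rw [← Finset.card_union_of_disjoint (Finset.disjoint_filter_filter_not _ _ _)]
    congr 1
    ext v
    rw [Finset.mem_union, Finset.mem_filter, Finset.mem_filter]
    tauto
  rw [Int.card_Icc] at h2
  have h3 : ((cown_A e a b).card : ℤ) +
      (((Finset.Icc a b).filter (fun v => ¬ OO e v)).card : ℤ) = b + 1 - a := by
    have : ((b + 1 - a).toNat : ℤ) = b + 1 - a := Int.toNat_of_nonneg (by omega)
    rw [← this, ← h2]
    push_cast
    ring
  rw [← h3]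
  linarith

theorem p_cown (h1 : S_cnt) (_h2 : S_mown) : S_cown := by
  intro e n he hn
  have hK : 0 < KK e := by
    unfold KK
    refine mul_pos (mul_pos ?_ ?_) ?_
    · unfold p1
      omega
    · unfold p2
      omega
    · unfold p3
      omega
  have hp2 : 1 ≤ p2 e := by
    unfold p2
    linarith
  refine ⟨?_, ?_, ?_⟩
  · intro t ht
    rw [cown_card, cown_card]
    have ha := cown_two e (-(t - KK e)) (t - KK e) (-(t + 1 - KK e)) (t + 1 - KK e)
      (-(t + 1 - KK e)) (t + 1 - KK e) (by intro v hv hv'; omega)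
    have hb := cown_two e (2 * KK e + t - 1 - (t - KK e)) (2 * KK e + t - 1 + (t - KK e))
      (2 * KK e + (t + 1) - 1 - (t + 1 - KK e)) (2 * KK e + (t + 1) - 1 + (t + 1 - KK e))
      (KK e + 2 * t) (KK e + 2 * t + 1) (by intro v hv hv'; omega)
    omega
  · rw [cown_card]
    have ha := cown_le e 1 n (by omega)
    have hb := cown_le e (-(KK e - KK e)) (KK e - KK e) (by omega)
    have hc := cown_le e (2 * KK e + KK e - 1 - (KK e - KK e)) (2 * KK e + KK e - 1 + (KK e - KK e))
      (by omega)
    push_cast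
    omega
  · rw [cown_card]
    have ha := cown_ge h1 e 1 n (by omega) (by omega)
    have hb := cown_ge h1 e (-(n - 2 * KK e + 1 - KK e)) (n - 2 * KK e + 1 - KK e) (by omega)
      (by omega)
    have hc := cown_ge h1 e (2 * KK e + (n - 2 * KK e + 1) - 1 - (n - 2 * KK e + 1 - KK e))
      (2 * KK e + (n - 2 * KK e + 1) - 1 + (n - 2 * KK e + 1 - KK e)) (by omega) (by omega)
    push_cast
    nlinarith

end Pool.Agent.MP_b8d9b4_co.Top
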