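import Pool.Agent.Lib.MP_b8d9b4_co.Top.Stm

/-!
# MP_b8d9b4_co, [TOP cphi]: the number of merged queens
-/

set_option autoImplicit false

namespace Pool.Agent.MP_b8d9b4_co.Top

/-- not divisible by the first and the third modulus -/
private def cphi_good (e x : ℤ) : Prop := ¬ p1 e ∣ x ∧ ¬ p3 e ∣ x

private theorem cphi_small {p a : ℤ} (h0 : 0 < a) (h1 : a < p) : ¬ p ∣ a := fun h =>
  absurd (Int.le_of_dvd h0 h) (not_le.2 h1)

private theorem cphi_d1 {e : ℤ} (he : 500 ≤ e) (x c : ℤ) (hc : c = 1 ∨ c = 2)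
    (h : p1 e ∣ x) (h' : p1 e ∣ x + c * p2 e) : False := by
  have h1 : p1 e ∣ c * p1 e - ((x + c * p2 e) - x) :=
    Dvd.dvd.sub (Dvd.intro_left c rfl) (Dvd.dvd.sub h' h)
  have h2 : c * p1 e - ((x + c * p2 e) - x) = 2 * c := by
    unfold p1 p2; ring
  rw [h2] at h1
  refine cphi_small ?_ ?_ h1
  · rcases hc with rfl | rfl <;> norm_num
  · unfold p1
    rcases hc with rfl | rfl <;> omega

private theorem cphi_d3 {e : ℤ} (he : 500 ≤ e) (x c : ℤ) (hc : c = 1 ∨ c = 2)
    (h : p3 e ∣ x) (h' : p3 e ∣ x + c * p2 e) : False := by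
  have h1 : p3 e ∣ c * p3 e - ((x + c * p2 e) - x) :=
    Dvd.dvd.sub (Dvd.intro_left c rfl) (Dvd.dvd.sub h' h)
  have h2 : c * p3 e - ((x + c * p2 e) - x) = 4 * c := by
    unfold p3 p2; ring
  rw [h2] at h1
  refine cphi_small ?_ ?_ h1
  · rcases hc with rfl | rfl <;> norm_num
  · unfold p3
    rcases hc with rfl | rfl <;> omega

/-- one of three consecutive members is good -/
private theorem cphi_three {e : ℤ} (he : 500 ≤ e) (x : ℤ) (h0 : ¬ cphi_good e x)
    (h1 : ¬ cphi_good e (x + p2 e)) : cphi_good e (x + 2 * p2 e) := by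
  by_contra h2
  unfold cphi_good at h0 h1 h2
  rw [not_and_or, not_not, not_not] at h0 h1 h2
  have e1 : x + p2 e = x + 1 * p2 e := by ring
  have e2 : x + 2 * p2 e = (x + p2 e) + 1 * p2 e := by ring
  rcases h0 with a | a <;> rcases h1 with b | b <;> rcases h2 with c | c
  · exact cphi_d1 he x 1 (Or.inl rfl) a (e1 ▸ b)
  · exact cphi_d1 he x 1 (Or.inl rfl) a (e1 ▸ b)
  · exact cphi_d1 he x 2 (Or.inr rfl) a c
  · exact cphi_d3 he (x + p2 e) 1 (Or.inl rfl) b (e2 ▸ c)
  · exact cphi_d1 he (x + p2 e) 1 (Or.inl rfl) b (e2 ▸ c)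
  · exact cphi_d3 he x 2 (Or.inr rfl) a c
  · exact cphi_d3 he x 1 (Or.inl rfl) a (e1 ▸ b)
  · exact cphi_d3 he x 1 (Or.inl rfl) a (e1 ▸ b)

private theorem cphi_KK {e : ℤ} (he : 500 ≤ e) : 2 * p2 e ≤ KK e := by
  have h : KK e - 2 * p2 e = (p1 e * p3 e - 2) * p2 e := by unfold KK; ring
  have h1 : 0 ≤ (p1 e * p3 e - 2) * p2 e := by
    apply mul_nonneg
    · unfold p1 p3; nlinarith
    · unfold p2; omega
  omega

/-- the number of the rows of the class `j` -/
private theorem cphi_rows (h1 : S_cnt) {e n : ℤ} (he : 500 ≤ e) (hn : 4 * KK e ≤ n) (j : ℤ) :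
    n - 3 * KK e ≤ (3 * ((rowsB e n j).card : ℤ) + 6) * p2 e := by
  classical
  have hK := cphi_KK he
  have hp : 1 ≤ p2 e := by unfold p2; omega
  let R : Finset ℤ := (Finset.Icc (KK e) (n - 2 * KK e - 2 * p2 e)).filter
    (fun v => p2 e ∣ v + 8 * j)
  have hR : n - 2 * KK e - 2 * p2 e - KK e + 1 ≤ (R.card : ℤ) * p2 e + (p2 e - 1) :=
    (h1.1 (p2 e) (KK e) (n - 2 * KK e - 2 * p2 e) (8 * j) hp (by omega)).2
  let f : ℤ → ℤ := fun r => if cphi_good e r then r else
    if cphi_good e (r + p2 e) then r + p2 e else r + 2 * p2 e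
  have hf : ∀ r, (f r = r ∨ f r = r + p2 e ∨ f r = r + 2 * p2 e) ∧ cphi_good e (f r) := by
    intro r
    by_cases g0 : cphi_good e r
    · have : f r = r := if_pos g0
      rw [this]
      exact ⟨Or.inl rfl, g0⟩
    · by_cases g1 : cphi_good e (r + p2 e)
      · have : f r = r + p2 e := by
          show (if cphi_good e r then r else
            if cphi_good e (r + p2 e) then r + p2 e else r + 2 * p2 e) = _
          rw [if_neg g0, if_pos g1]
        rw [this]
        exact ⟨Or.inr (Or.inl rfl), g1⟩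
      · have : f r = r + 2 * p2 e := by
          show (if cphi_good e r then r else
            if cphi_good e (r + p2 e) then r + p2 e else r + 2 * p2 e) = _
          rw [if_neg g0, if_neg g1]
        rw [this]
        exact ⟨Or.inr (Or.inr rfl), cphi_three he r g0 g1⟩
  have hmaps : ∀ r ∈ R, f r ∈ rowsB e n j := by
    intro r hr
    rw [Finset.mem_filter, Finset.mem_Icc] at hr
    obtain ⟨⟨ha, hb⟩, hc⟩ := hr
    obtain ⟨h3, g1, g3⟩ := hf r
    unfold rowsB
    rw [Finset.mem_filter, Finset.mem_Icc]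
    refine ⟨?_, ?_, g1, g3⟩
    · rcases h3 with h3 | h3 | h3 <;> rw [h3] <;> constructor <;> linarith
    · rcases h3 with h3 | h3 | h3 <;> rw [h3]
      · exact hc
      · have : r + p2 e + 8 * j = (r + 8 * j) + p2 e := by ring
        rw [this]
        exact dvd_add hc dvd_rfl
      · have : r + 2 * p2 e + 8 * j = (r + 8 * j) + 2 * p2 e := by ring
        rw [this]
        exact dvd_add hc (Dvd.intro_left 2 rfl)
  have hcard : R.card ≤ 3 * (rowsB e n j).card := by
    refine Finset.card_le_mul_card_image_of_maps_to hmaps 3 ?_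
    intro b _
    refine le_trans (Finset.card_le_card (?_ : _ ⊆ ({b, b - p2 e, b - 2 * p2 e} : Finset ℤ)))
      Finset.card_le_three
    intro r hr
    rw [Finset.mem_filter] at hr
    rw [Finset.mem_insert, Finset.mem_insert, Finset.mem_singleton]
    rcases (hf r).1 with h3 | h3 | h3 <;> rw [h3] at hr
    · exact Or.inl hr.2
    · exact Or.inr (Or.inl (by linarith [hr.2]))
    · exact Or.inr (Or.inr (by linarith [hr.2]))
  have hcard' : (R.card : ℤ) ≤ 3 * ((rowsB e n j).card : ℤ) := by exact_mod_cast hcard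
  have h4 : (R.card : ℤ) * p2 e ≤ 3 * ((rowsB e n j).card : ℤ) * p2 e :=
    mul_le_mul_of_nonneg_right hcard' (by omega)
  have h5 : (3 * ((rowsB e n j).card : ℤ) + 6) * p2 e =
      3 * ((rowsB e n j).card : ℤ) * p2 e + 6 * p2 e := by ring
  rw [h5]
  linarith

/-- [TOP cphi] -/
theorem p_cphi (h1 : S_cnt) (_h2 : S_mphi) (_h3 : S_phi) : S_cphi := by
  classical
  intro e n he hn
  have hcard : (PhiB e n).card = ∑ j ∈ Finset.Icc (1 : ℤ) 60, (rowsB e n j).card := by
    unfold PhiB
    rw [Finset.card_biUnion]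
    · apply Finset.sum_congr rfl
      intro j _
      apply Finset.card_image_of_injective
      intro r r' h
      exact (Prod.mk.inj h).2
    · intro j hj j' hj' hne
      refine Finset.disjoint_left.2 ?_
      intro u hu hu'
      rw [Finset.mem_image] at hu hu'
      obtain ⟨r, hr, rfl⟩ := hu
      obtain ⟨r', hr', h⟩ := hu'
      have hrr : r' = r := (Prod.mk.inj h).2
      subst hrr
      unfold rowsB at hr hr'
      rw [Finset.mem_filter] at hr hr'
      have hd : p2 e ∣ 8 * (j - j') := by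
        have h3 := dvd_sub hr.2.1 hr'.2.1
        have h4 : r' + 8 * j - (r' + 8 * j') = 8 * (j - j') := by ring
        rwa [h4] at h3
      rw [Finset.coe_Icc, Set.mem_Icc] at hj hj'
      have h0 : 8 * (j - j') = 0 := by
        apply Int.eq_zero_of_abs_lt_dvd hd
        rw [abs_lt]
        unfold p2
        constructor <;> omega
      exact hne (by omega)
  have hsum : ∑ j ∈ Finset.Icc (1 : ℤ) 60, (n - 3 * KK e) ≤
      ∑ j ∈ Finset.Icc (1 : ℤ) 60, (3 * ((rowsB e n j).card : ℤ) + 6) * p2 e :=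
    Finset.sum_le_sum fun j _ => cphi_rows h1 he hn j
  have hc : (Finset.Icc (1 : ℤ) 60).card = 60 := by
    rw [Int.card_Icc]; rfl
  rw [Finset.sum_const, hc, ← Finset.sum_mul, Finset.sum_add_distrib, Finset.sum_const, hc,
    ← Finset.mul_sum] at hsum
  have hcard' : ((PhiB e n).card : ℤ) = ∑ j ∈ Finset.Icc (1 : ℤ) 60, ((rowsB e n j).card : ℤ) := by
    rw [hcard]; push_cast; rfl
  rw [← hcard'] at hsum
  simp only [nsmul_eq_mul] at hsum
  push_cast at hsum
  nlinarith [hsum]

end Pool.Agent.MP_b8d9b4_co.Top
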