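import Pool.Agent.Lib.MP_b8d9b4_co.Top.Stm

/-!
# MP_b8d9b4_co, piece cphi0: the number of the queens which stay merged
-/

set_option autoImplicit false
set_option linter.constructorNameAsVariable false

namespace Pool.Agent.MP_b8d9b4_co.Top

theorem cphi0_card (A B : Finset Sq) (K : ℤ) (hK : 0 < K)
    (hA : ∀ u, u ∈ A → u ∈ B ∧ u.2 < 2 * K) (hB : ∀ u, u ∈ B → K ≤ u.2)
    (hi : ∀ u ∈ B, ∀ u' ∈ B, u ≠ u' → u.1 ≠ u'.1 ∧ u.2 ≠ u'.2) : (A.card : ℤ) ≤ K := by
  have h3 : A.card ≤ (Finset.Icc K (2 * K - 1)).card := by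
    apply Finset.card_le_card_of_injOn (fun u : Sq => u.2)
    · intro u hu
      have h := hA u hu
      have h' := hB u h.1
      rw [Finset.mem_coe, Finset.mem_Icc]
      constructor
      · exact h'
      · show u.2 ≤ 2 * K - 1
        omega
    · intro u hu u' hu' h
      by_contra hne
      exact (hi u (hA u hu).1 u' (hA u' hu').1 hne).2 h
  rw [Int.card_Icc] at h3
  omega

theorem cphi0_mem (e n : ℤ) (u : Sq) (hu : u ∈ Phi0B e n) : u ∈ PhiB e n ∧ u.2 < 2 * KK e := by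
  unfold Phi0B at hu
  rw [Finset.mem_filter] at hu
  exact hu

theorem cphi0_memB (h2 : S_mphi) (e n : ℤ) (u : Sq) (hu : u ∈ PhiB e n) : KK e ≤ u.2 := by
  rw [h2 e n u] at hu
  obtain ⟨j, h6⟩ := hu
  exact h6.2.2.1

theorem p_cphi0 (h1 : S_phi) (h2 : S_mphi) : S_cphi0 := by
  intro e n he hn
  have hK : 0 < KK e := by
    unfold KK p1 p2 p3
    have a1 : (0 : ℤ) < 2 * e + 3 := by omega
    have a2 : (0 : ℤ) < 2 * e + 1 := by omega
    have a3 : (0 : ℤ) < 2 * e + 5 := by omega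
    exact mul_pos (mul_pos a1 a2) a3
  exact cphi0_card _ _ _ hK (cphi0_mem e n) (cphi0_memB h2 e n)
    (h1 e n (KK e) he le_rfl (by omega)).2

end Pool.Agent.MP_b8d9b4_co.Top
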