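import Pool.Agent.Lib.MP_b8d9b4_co.Top.Stm

/-! [TOP crt] Chinese remainders, uniqueness, division by two. -/

set_option autoImplicit false

namespace Pool.Agent.MP_b8d9b4_co.Top

private lemma crt_c12 (e : ℤ) : IsCoprime (p1 e) (p2 e) :=
  ⟨-e, e + 1, by unfold p1 p2; ring⟩

private lemma crt_c13 (e : ℤ) : IsCoprime (p1 e) (p3 e) :=
  ⟨e + 2, -(e + 1), by unfold p1 p3; ring⟩

private lemma crt_c23 (e : ℤ) : IsCoprime (p2 e) (p3 e) :=
  ⟨p2 e + e * (e + 1), -(e * (e + 1)), by unfold p2 p3; ring⟩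

/-- two congruences -/
private lemma crt_two {m n : ℤ} (h : IsCoprime m n) (a b : ℤ) : ∃ x, m ∣ x - a ∧ n ∣ x - b := by
  obtain ⟨u, v, huv⟩ := h
  refine ⟨a * (v * n) + b * (u * m), ?_, ?_⟩
  · refine ⟨(b - a) * u, ?_⟩
    have : v * n = 1 - u * m := by linarith
    rw [this]; ring
  · refine ⟨(a - b) * v, ?_⟩
    have : u * m = 1 - v * n := by linarith
    rw [this]; ring

theorem p_crt : S_crt := by
  intro e he
  have hK : 0 < KK e := by
    unfold KK p1 p2 p3
    positivity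
  have h12 := crt_c12 e
  have h13 := crt_c13 e
  have h23 := crt_c23 e
  refine ⟨?_, ?_, ?_⟩
  · intro a1 a2 a3 L
    obtain ⟨y, hy1, hy2⟩ := crt_two h12 a1 a2
    have h123 : IsCoprime (p1 e * p2 e) (p3 e) := IsCoprime.mul_left h13 h23
    obtain ⟨z, hz1, hz2⟩ := crt_two h123 y a3
    have hzK : KK e ∣ (L + (z - L) % KK e) - z := by
      have h := Int.emod_add_mul_ediv (z - L) (KK e)
      exact ⟨-((z - L) / KK e), by linarith⟩
    have hd1 : p1 e ∣ KK e := ⟨p2 e * p3 e, by unfold KK; ring⟩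
    have hd2 : p2 e ∣ KK e := ⟨p1 e * p3 e, by unfold KK; ring⟩
    have hd3 : p3 e ∣ KK e := ⟨p1 e * p2 e, by unfold KK; ring⟩
    refine ⟨L + (z - L) % KK e, ?_, ?_, ?_, ?_, ?_⟩
    · have := Int.emod_nonneg (z - L) hK.ne'
      linarith
    · have := Int.emod_lt_of_pos (z - L) hK
      linarith
    · have h1 : p1 e ∣ z - y := (Dvd.intro _ rfl : p1 e ∣ p1 e * p2 e).trans hz1
      have h2 := dvd_add (dvd_add (hd1.trans hzK) h1) hy1
      have h3 : (L + (z - L) % KK e) - z + (z - y) + (y - a1) = L + (z - L) % KK e - a1 := by ring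
      rwa [h3] at h2
    · have h1 : p2 e ∣ z - y := (Dvd.intro_left _ rfl : p2 e ∣ p1 e * p2 e).trans hz1
      have h2 := dvd_add (dvd_add (hd2.trans hzK) h1) hy2
      have h3 : (L + (z - L) % KK e) - z + (z - y) + (y - a2) = L + (z - L) % KK e - a2 := by ring
      rwa [h3] at h2
    · have h2 := dvd_add (hd3.trans hzK) hz2
      have h3 : (L + (z - L) % KK e) - z + (z - a3) = L + (z - L) % KK e - a3 := by ring
      rwa [h3] at h2
  · intro x x' hlt h1 h2 h3
    have h4 : p1 e * p2 e ∣ x - x' := h12.mul_dvd h1 h2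
    have h5 : p1 e * p2 e * p3 e ∣ x - x' := (IsCoprime.mul_left h13 h23).mul_dvd h4 h3
    have h6 : KK e ∣ x - x' := by
      have : KK e = p1 e * p2 e * p3 e := by unfold KK; ring
      rw [this]; exact h5
    have h7 := Int.eq_zero_of_abs_lt_dvd h6 hlt
    linarith
  · intro v
    have o1 : IsCoprime (p1 e) 2 := ⟨1, -(e + 1), by unfold p1; ring⟩
    have o2 : IsCoprime (p2 e) 2 := ⟨1, -e, by unfold p2; ring⟩
    have o3 : IsCoprime (p3 e) 2 := ⟨1, -(e + 2), by unfold p3; ring⟩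
    exact ⟨fun h => o1.dvd_of_dvd_mul_left h, fun h => o2.dvd_of_dvd_mul_left h,
      fun h => o3.dvd_of_dvd_mul_left h⟩

end Pool.Agent.MP_b8d9b4_co.Top
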