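import Pool.Agent.Lib.MP_b8d9b4_co.Top.Stm

set_option autoImplicit false

namespace Pool.Agent.MP_b8d9b4_co.Top

open Classical in
private noncomputable def cz_A (e a b : ℤ) : Finset ℤ := (Finset.Icc a b).filter (fun v => ¬ OO e v)

open Classical in
private noncomputable def cz_D (e t : ℤ) : Finset ℤ :=
  cz_A e (-(t - 1)) (t - 1) ∪ Finset.Icc (-(t - 1)) (-(t - KK e) - 1) ∪
    Finset.Icc (t - KK e + 1) (t - 1)

open Classical in
private noncomputable def cz_S (e t : ℤ) : Finset ℤ :=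
  cz_A e (2 * KK e) (2 * KK e + 2 * (t - 1)) ∪
    Finset.Icc (2 * KK e) (2 * KK e + t - 1 - (t - KK e) - 1) ∪
    Finset.Icc (2 * KK e + t - 1 + (t - KK e) + 1) (2 * KK e + 2 * (t - 1))

open Classical in
private theorem cz_mem_A {e a b v : ℤ} : v ∈ cz_A e a b ↔ (a ≤ v ∧ v ≤ b) ∧ ¬ OO e v := by
  unfold cz_A
  rw [Finset.mem_filter, Finset.mem_Icc]

private theorem cz_card_A (h1 : S_cnt) (e a b : ℤ) (he : 1 ≤ e) (hab : a ≤ b + 1) :
    ((cz_A e a b).card : ℤ) * p2 e ≤ 3 * ((b - a + 1) + p2 e) := by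
  refine h1.2 e a b he hab (cz_A e a b) ?_ ?_
  · intro v hv
    rw [cz_mem_A] at hv
    rw [Finset.mem_Icc]
    exact hv.1
  · intro v hv
    rw [cz_mem_A] at hv
    exact hv.2

private theorem cz_Icc (a b k : ℤ) (hk : 0 ≤ k) (h : b + 1 - a ≤ k) :
    ((Finset.Icc a b).card : ℤ) ≤ k := by
  rw [Int.card_Icc]
  omega

private theorem cz_sub (h2 : S_mown) (h3 : S_mneed) (e n t : ℤ) :
    needB e n t ⊆ ((cz_A e 1 n).image (fun v => ((0, v) : Line)) ∪
      (cz_A e 1 n).image (fun v => ((1, v) : Line))) ∪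
      ((cz_D e t).image (fun v => ((2, v) : Line)) ∪
      (cz_S e t).image (fun v => ((3, v) : Line))) := by
  rintro ⟨X, v⟩ hl
  have hm := (h3 e n t X v).1 hl
  obtain ⟨hno, -, hr⟩ := hm
  rw [h2 e n t X v] at hno
  have hX : X = 0 ∨ X = 1 ∨ X = 2 ∨ X = 3 := by
    fin_cases X <;> simp
  rcases hX with rfl | rfl | rfl | rfl
  · simp only at hno hr
    refine Finset.mem_union_left _ (Finset.mem_union_left _ ?_)
    refine Finset.mem_image_of_mem (fun v => ((0, v) : Line)) ?_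
    rw [cz_mem_A]
    exact ⟨hr, fun h => hno ⟨h, hr⟩⟩
  · simp only at hno hr
    refine Finset.mem_union_left _ (Finset.mem_union_right _ ?_)
    refine Finset.mem_image_of_mem (fun v => ((1, v) : Line)) ?_
    rw [cz_mem_A]
    exact ⟨hr, fun h => hno ⟨h, hr⟩⟩
  · simp only at hno hr
    refine Finset.mem_union_right _ (Finset.mem_union_left _ ?_)
    refine Finset.mem_image_of_mem (fun v => ((2, v) : Line)) ?_
    unfold cz_D
    rw [Finset.mem_union, Finset.mem_union, cz_mem_A, Finset.mem_Icc, Finset.mem_Icc]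
    by_cases hO : OO e v
    · by_cases hv : -(t - KK e) ≤ v
      · by_cases hv2 : v ≤ t - KK e
        · exact absurd ⟨hO, hv, hv2⟩ hno
        · right
          exact ⟨by omega, hr.2⟩
      · left; right
        exact ⟨hr.1, by omega⟩
    · left; left
      exact ⟨hr, hO⟩
  · simp only at hno hr
    refine Finset.mem_union_right _ (Finset.mem_union_right _ ?_)
    refine Finset.mem_image_of_mem (fun v => ((3, v) : Line)) ?_
    unfold cz_S
    rw [Finset.mem_union, Finset.mem_union, cz_mem_A, Finset.mem_Icc, Finset.mem_Icc]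
    by_cases hO : OO e v
    · by_cases hv : 2 * KK e + t - 1 - (t - KK e) ≤ v
      · by_cases hv2 : v ≤ 2 * KK e + t - 1 + (t - KK e)
        · exact absurd ⟨hO, hv, hv2⟩ hno
        · right
          exact ⟨by omega, hr.2⟩
      · left; right
        exact ⟨hr.1, by omega⟩
    · left; left
      exact ⟨hr, hO⟩

theorem p_cz (h1 : S_cnt) (h2 : S_mown) (h3 : S_mneed) : S_cz := by
  intro e n t he ht1 ht2
  have hp2 : (1001 : ℤ) ≤ p2 e := by unfold p2; omega
  have hK : (1 : ℤ) ≤ KK e := by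
    unfold KK p1 p2 p3
    have ha : (1 : ℤ) ≤ 2 * e + 3 := by omega
    have hb : (1 : ℤ) ≤ 2 * e + 1 := by omega
    have hc : (1 : ℤ) ≤ 2 * e + 5 := by omega
    have hab : (1 : ℤ) ≤ (2 * e + 3) * (2 * e + 1) := by nlinarith
    nlinarith
  have c0 : (ZB e n t).card ≤ (needB e n t).card := by
    unfold ZB
    exact Finset.card_image_le
  have c1 : (needB e n t).card ≤ ((cz_A e 1 n).card + (cz_A e 1 n).card) +
      ((cz_D e t).card + (cz_S e t).card) := by
    refine (Finset.card_le_card (cz_sub h2 h3 e n t)).trans ?_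
    refine (Finset.card_union_le _ _).trans ?_
    refine add_le_add ?_ ?_
    · refine (Finset.card_union_le _ _).trans ?_
      exact add_le_add Finset.card_image_le Finset.card_image_le
    · refine (Finset.card_union_le _ _).trans ?_
      exact add_le_add Finset.card_image_le Finset.card_image_le
  have cA := cz_card_A h1 e 1 n (by omega) (by omega)
  have cD0 := cz_card_A h1 e (-(t - 1)) (t - 1) (by omega) (by omega)
  have cS0 := cz_card_A h1 e (2 * KK e) (2 * KK e + 2 * (t - 1)) (by omega) (by omega)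
  have cD : ((cz_D e t).card : ℤ) ≤ ((cz_A e (-(t - 1)) (t - 1)).card : ℤ) + (KK e - 1) +
      (KK e - 1) := by
    have h : (cz_D e t).card ≤ (cz_A e (-(t - 1)) (t - 1)).card +
        (Finset.Icc (-(t - 1)) (-(t - KK e) - 1)).card + (Finset.Icc (t - KK e + 1) (t - 1)).card := by
      unfold cz_D
      refine (Finset.card_union_le _ _).trans ?_
      exact add_le_add (Finset.card_union_le _ _) le_rfl
    have h' := cz_Icc (-(t - 1)) (-(t - KK e) - 1) (KK e - 1) (by omega) (by omega)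
    have h'' := cz_Icc (t - KK e + 1) (t - 1) (KK e - 1) (by omega) (by omega)
    have h3 : ((cz_D e t).card : ℤ) ≤ ((cz_A e (-(t - 1)) (t - 1)).card : ℤ) +
        ((Finset.Icc (-(t - 1)) (-(t - KK e) - 1)).card : ℤ) +
        ((Finset.Icc (t - KK e + 1) (t - 1)).card : ℤ) := by exact_mod_cast h
    linarith
  have cS : ((cz_S e t).card : ℤ) ≤ ((cz_A e (2 * KK e) (2 * KK e + 2 * (t - 1))).card : ℤ) +
      (KK e - 1) + (KK e - 1) := by
    have h : (cz_S e t).card ≤ (cz_A e (2 * KK e) (2 * KK e + 2 * (t - 1))).card +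
        (Finset.Icc (2 * KK e) (2 * KK e + t - 1 - (t - KK e) - 1)).card +
        (Finset.Icc (2 * KK e + t - 1 + (t - KK e) + 1) (2 * KK e + 2 * (t - 1))).card := by
      unfold cz_S
      refine (Finset.card_union_le _ _).trans ?_
      exact add_le_add (Finset.card_union_le _ _) le_rfl
    have h' := cz_Icc (2 * KK e) (2 * KK e + t - 1 - (t - KK e) - 1) (KK e - 1) (by omega) (by omega)
    have h'' := cz_Icc (2 * KK e + t - 1 + (t - KK e) + 1) (2 * KK e + 2 * (t - 1)) (KK e - 1)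
      (by omega) (by omega)
    have h3 : ((cz_S e t).card : ℤ) ≤ ((cz_A e (2 * KK e) (2 * KK e + 2 * (t - 1))).card : ℤ) +
        ((Finset.Icc (2 * KK e) (2 * KK e + t - 1 - (t - KK e) - 1)).card : ℤ) +
        ((Finset.Icc (2 * KK e + t - 1 + (t - KK e) + 1) (2 * KK e + 2 * (t - 1))).card : ℤ) := by
      exact_mod_cast h
    linarith
  have c2 : ((ZB e n t).card : ℤ) ≤ (((cz_A e 1 n).card : ℤ) + ((cz_A e 1 n).card : ℤ)) +
      (((cz_D e t).card : ℤ) + ((cz_S e t).card : ℤ)) := by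
    exact_mod_cast c0.trans c1
  have c3 : ((ZB e n t).card : ℤ) ≤ 2 * ((cz_A e 1 n).card : ℤ) +
      ((cz_A e (-(t - 1)) (t - 1)).card : ℤ) +
      ((cz_A e (2 * KK e) (2 * KK e + 2 * (t - 1))).card : ℤ) + 4 * (KK e - 1) := by
    linarith
  have c4 := mul_le_mul_of_nonneg_right c3 (by linarith : (0 : ℤ) ≤ p2 e)
  have c5 : (2 * ((cz_A e 1 n).card : ℤ) +
      ((cz_A e (-(t - 1)) (t - 1)).card : ℤ) +
      ((cz_A e (2 * KK e) (2 * KK e + 2 * (t - 1))).card : ℤ) + 4 * (KK e - 1)) * p2 e =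
      2 * (((cz_A e 1 n).card : ℤ) * p2 e) +
      ((cz_A e (-(t - 1)) (t - 1)).card : ℤ) * p2 e +
      ((cz_A e (2 * KK e) (2 * KK e + 2 * (t - 1))).card : ℤ) * p2 e +
      (4 * KK e * p2 e - 4 * p2 e) := by ring
  rw [c5] at c4
  have c6 : 2 * (((cz_A e 1 n).card : ℤ) * p2 e) +
      ((cz_A e (-(t - 1)) (t - 1)).card : ℤ) * p2 e +
      ((cz_A e (2 * KK e) (2 * KK e + 2 * (t - 1))).card : ℤ) * p2 e +
      (4 * KK e * p2 e - 4 * p2 e) ≤ 2 * (3 * ((n - 1 + 1) + p2 e)) +
      3 * ((t - 1 - (-(t - 1)) + 1) + p2 e) +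
      3 * ((2 * KK e + 2 * (t - 1) - 2 * KK e + 1) + p2 e) +
      (4 * KK e * p2 e - 4 * p2 e) := by linarith
  refine c4.trans (c6.trans ?_)
  linarith

end Pool.Agent.MP_b8d9b4_co.Top
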