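import Pool.Agent.Lib.MP_b8d9b4_co.Top.Stm

/-!
# MP_b8d9b4_co, sizes of minimal dominating sets of the queens graph: the choice of `e`
-/

set_option autoImplicit false

namespace Pool.Agent.MP_b8d9b4_co.Top

private theorem fin_e (n : ℕ) (hn : 100 * 1001 ^ 4 ≤ n) :
    ∃ e : ℕ, 500 ≤ e ∧ 100 * (2 * e + 1) ^ 4 ≤ n ∧ n < 100 * (2 * e + 3) ^ 4 := by
  classical
  have hP : ∃ e : ℕ, n < 100 * (2 * e + 3) ^ 4 := by
    refine ⟨n, ?_⟩
    have h1 : 2 * n + 3 ≤ (2 * n + 3) ^ 4 := Nat.le_self_pow (by norm_num) _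
    omega
  have h500 : 500 ≤ Nat.find hP := by
    by_contra h
    have h1 := Nat.find_spec hP
    have h2 : 2 * Nat.find hP + 3 ≤ 1001 := by omega
    have h3 : (2 * Nat.find hP + 3) ^ 4 ≤ 1001 ^ 4 := Nat.pow_le_pow_left h2 4
    omega
  refine ⟨Nat.find hP, h500, ?_, Nat.find_spec hP⟩
  have h4 := Nat.find_min hP (m := Nat.find hP - 1) (by omega)
  have h5 : 2 * (Nat.find hP - 1) + 3 = 2 * Nat.find hP + 1 := by omega
  rw [h5] at h4
  exact not_lt.1 h4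

private theorem fin_real (m x : ℝ) (hm : 1001 ≤ m) (hx : 0 < x) (h1 : 100 * m ^ 4 ≤ x ^ 4)
    (h2 : x ^ 4 < 100 * (m + 2) ^ 4) :
    (13 * ((m + 2) * m * (m + 4)) + 6) * m + 18 * x ^ 4 ≤ 100000 * x ^ 3 * m := by
  have hm0 : 0 < m := by linarith
  have hm4 : 0 < m ^ 4 := by positivity
  have a1 : m ≤ x := by
    by_contra h
    have h3 : x ^ 4 ≤ m ^ 4 := pow_le_pow_left₀ hx.le (not_le.1 h).le 4
    linarith
  have a2 : x ≤ 4 * m := by
    by_contra h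
    have h3 : (4 * m) ^ 4 ≤ x ^ 4 := pow_le_pow_left₀ (by linarith) (not_le.1 h).le 4
    have h4 : (m + 2) ^ 4 ≤ (5 / 4 * m) ^ 4 := pow_le_pow_left₀ (by linarith) (by linarith) 4
    have h5 : (4 * m) ^ 4 = 256 * m ^ 4 := by ring
    have h6 : (5 / 4 * m) ^ 4 = 625 / 256 * m ^ 4 := by ring
    rw [h5] at h3
    rw [h6] at h4
    linarith
  have a3 : m ^ 3 ≤ x ^ 3 := pow_le_pow_left₀ hm0.le a1 3
  have a4 : (m + 2) * (m + 4) ≤ 3 / 2 * m ^ 2 := by nlinarith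
  have a5 : 13 * ((m + 2) * m * (m + 4)) + 6 ≤ 20 * m ^ 3 := by
    have h3 : 13 * ((m + 2) * m * (m + 4)) = 13 * m * ((m + 2) * (m + 4)) := by ring
    have h4 : 13 * m * ((m + 2) * (m + 4)) ≤ 13 * m * (3 / 2 * m ^ 2) :=
      mul_le_mul_of_nonneg_left a4 (by linarith)
    have h5 : 13 * m * (3 / 2 * m ^ 2) = 39 / 2 * m ^ 3 := by ring
    have h6 : (1001 : ℝ) ^ 3 ≤ m ^ 3 := pow_le_pow_left₀ (by norm_num) hm 3
    norm_num at h6
    rw [h3]
    linarith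
  have a6 : (13 * ((m + 2) * m * (m + 4)) + 6) * m ≤ 20 * x ^ 3 * m :=
    mul_le_mul_of_nonneg_right (by linarith) hm0.le
  have hx3 : 0 < x ^ 3 := by positivity
  have a7 : x ^ 4 ≤ 4 * m * x ^ 3 := by
    have h3 : x ^ 4 = x * x ^ 3 := by ring
    rw [h3]
    exact mul_le_mul_of_nonneg_right a2 hx3.le
  have a8 : 0 < x ^ 3 * m := by positivity
  linarith

theorem p_fin (h1 : S_main) : S_fin := by
  refine ⟨100000, by norm_num, ?_⟩
  intro n k hn hk hC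
  have hn0 : (0 : ℝ) < n := by
    have : 0 < n := by omega
    exact_mod_cast this
  obtain ⟨x, hx0, hx4, hx3⟩ : ∃ x : ℝ, 0 < x ∧ x ^ 4 = n ∧ (n : ℝ) ^ (3 / 4 : ℝ) = x ^ 3 := by
    refine ⟨(n : ℝ) ^ (1 / 4 : ℝ), ?_, ?_, ?_⟩
    · positivity
    · rw [← Real.rpow_natCast, ← Real.rpow_mul hn0.le]
      norm_num
    · rw [← Real.rpow_natCast, ← Real.rpow_mul hn0.le]
      norm_num
  rw [hx3] at hC
  have hxp : 0 < x ^ 3 := by positivity
  by_cases hN : n < 100 * 1001 ^ 4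
  · exfalso
    have h2 : x < 3200 := by
      by_contra h
      have h3 : (3200 : ℝ) ^ 4 ≤ x ^ 4 := pow_le_pow_left₀ (by norm_num) (not_lt.1 h) 4
      rw [hx4] at h3
      have h4 : (n : ℝ) < 100 * 1001 ^ 4 := by exact_mod_cast hN
      norm_num at h3 h4
      linarith
    have h5 : (n : ℝ) = x * x ^ 3 := by rw [← hx4]; ring
    have h6 : x * x ^ 3 ≤ 3200 * x ^ 3 := mul_le_mul_of_nonneg_right h2.le hxp.le
    have h7 : (0 : ℝ) ≤ k := Nat.cast_nonneg k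
    rw [h5] at hC
    linarith
  · obtain ⟨e, he500, he1, he2⟩ := fin_e n (not_lt.1 hN)
    obtain ⟨m, hm⟩ : ∃ m : ℝ, m = 2 * (e : ℝ) + 1 := ⟨_, rfl⟩
    have hm1 : 1001 ≤ m := by
      have : (500 : ℝ) ≤ e := by exact_mod_cast he500
      rw [hm]
      linarith
    have hr1 : 100 * m ^ 4 ≤ x ^ 4 := by
      rw [hx4, hm]
      exact_mod_cast he1
    have hr2 : x ^ 4 < 100 * (m + 2) ^ 4 := by
      have h3 : m + 2 = 2 * (e : ℝ) + 3 := by rw [hm]; ring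
      rw [hx4, h3]
      exact_mod_cast he2
    have hr := fin_real m x hm1 hx0 hr1 hr2
    have hm0 : 0 ≤ m := by linarith
    have hkm : ((k : ℝ) + 100000 * x ^ 3) * m ≤ 6 * n * m := mul_le_mul_of_nonneg_right hC hm0
    refine h1 e n (by exact_mod_cast he500) ?_ k ?_ ?_
    · unfold p2
      exact_mod_cast he1
    · have : (2 * n : ℤ) ≤ k + 12 := by exact_mod_cast hk
      linarith
    · have hfin : (((k : ℝ) + 13 * ((m + 2) * m * (m + 4)) + 6) * m + 18 * n ≤ 6 * n * m) := by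
        rw [hx4] at hr
        linarith
      have e1 : m + 2 = 2 * (e : ℝ) + 3 := by rw [hm]; ring
      have e2 : m + 4 = 2 * (e : ℝ) + 5 := by rw [hm]; ring
      rw [e1, e2, hm] at hfin
      unfold KK p1 p2 p3
      exact_mod_cast hfin

end Pool.Agent.MP_b8d9b4_co.Top
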