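import Pool.Agent.Lib.MP_b8d9b4_co.Top.Stm

set_option autoImplicit false

namespace Pool.Agent.MP_b8d9b4_co.Top

private theorem fpt_comb {p a b c : ℤ} (h1 : p ∣ a) (h2 : p ∣ b) (s r : ℤ)
    (hc : c = s * a + r * b) : p ∣ c :=
  hc ▸ dvd_add (Dvd.dvd.mul_left h1 s) (Dvd.dvd.mul_left h2 r)

private theorem fpt_ee0 {e t x : ℤ} (a : p1 e ∣ x) (b : ¬ p2 e ∣ x) (c : ¬ p3 e ∣ x)
    (w1 : KK e ≤ x) (w2 : x ≤ KK e + t - 1) : EE e t 0 x :=
  ⟨⟨a, b, c⟩, fun _ => ⟨w1, w2⟩⟩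

private theorem fpt_ee1 {e t x : ℤ} (c : ¬ p3 e ∣ x)
    (h : (p1 e ∣ x ∧ ¬ p2 e ∣ x) ∨ (¬ p1 e ∣ x ∧ p2 e ∣ x))
    (w1 : KK e ≤ x) (w2 : x ≤ KK e + t - 1) : EE e t 1 x :=
  ⟨⟨c, h⟩, fun _ => ⟨w1, w2⟩⟩

private theorem fpt_ee2 {e t v : ℤ} (a : ¬ p1 e ∣ v)
    (h : (p2 e ∣ v ∧ ¬ p3 e ∣ v) ∨ (¬ p2 e ∣ v ∧ p3 e ∣ v)) : EE e t 2 v :=
  ⟨⟨a, h⟩, fun h => by rcases h with h | h <;> exact absurd h (by decide)⟩

private theorem fpt_ee3 {e t v : ℤ} (c : p3 e ∣ v) (a : ¬ p1 e ∣ v) (b : ¬ p2 e ∣ v) :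
    EE e t 3 v :=
  ⟨⟨c, a, b⟩, fun h => by rcases h with h | h <;> exact absurd h (by decide)⟩

theorem p_fpt (h1 : S_crt) : S_fpt := by
  intro e n t he hKt htn l hl
  obtain ⟨hex, -, hdiv⟩ := h1 e he
  have hK : 0 < KK e := by
    unfold KK p1 p2 p3
    positivity
  unfold ownB at hl
  simp only [Finset.mem_union, Finset.mem_image, Finset.mem_filter, Finset.mem_Icc] at hl
  rcases hl with ((⟨v, ⟨hv, ho⟩, rfl⟩ | ⟨v, ⟨hv, ho⟩, rfl⟩) | ⟨v, ⟨hv, ho⟩, rfl⟩) |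
    ⟨v, ⟨hv, ho⟩, rfl⟩
  · -- column
    obtain ⟨o1, o2, o3⟩ := ho
    obtain ⟨y, hy1, hy2, d1, d2, d3⟩ := hex 0 v (-v) (KK e)
    rw [sub_zero] at d1
    refine ⟨(v, y), mem_board.2 ⟨hv.1, hv.2, ?_, ?_⟩, rfl, ?_⟩
    · show 1 ≤ y; omega
    · show y ≤ n; omega
    intro X hX
    fin_cases X
    · exact absurd rfl hX
    · show EE e t 1 y
      refine fpt_ee1 (fun h => o3 (fpt_comb d3 h 1 (-1) (by ring)))
        (Or.inl ⟨d1, fun h => o2 (fpt_comb d2 h (-1) 1 (by ring))⟩) hy1 (by omega)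
    · show EE e t 2 (v - y)
      refine fpt_ee2 (fun h => o1 (fpt_comb h d1 1 1 (by ring)))
        (Or.inl ⟨fpt_comb d2 d2 (-1) 0 (by ring), fun h => ?_⟩)
      exact o3 ((hdiv v).2.2 (fpt_comb h d3 1 1 (by ring)))
    · show EE e t 3 (v + y)
      refine fpt_ee3 (fpt_comb d3 d3 1 0 (by ring)) (fun h => o1 (fpt_comb h d1 1 (-1) (by ring)))
        (fun h => ?_)
      exact o2 ((hdiv v).2.1 (fpt_comb h d2 1 (-1) (by ring)))
  · -- row
    obtain ⟨o1, o2, o3⟩ := ho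
    obtain ⟨x, hx1, hx2, d1, d2, d3⟩ := hex 0 v (-v) (KK e)
    rw [sub_zero] at d1
    refine ⟨(x, v), mem_board.2 ⟨?_, ?_, hv.1, hv.2⟩, rfl, ?_⟩
    · show 1 ≤ x; omega
    · show x ≤ n; omega
    intro X hX
    fin_cases X
    · show EE e t 0 x
      exact fpt_ee0 d1 (fun h => o2 (fpt_comb d2 h (-1) 1 (by ring)))
        (fun h => o3 (fpt_comb d3 h 1 (-1) (by ring))) hx1 (by omega)
    · exact absurd rfl hX
    · show EE e t 2 (x - v)
      refine fpt_ee2 (fun h => o1 (fpt_comb h d1 (-1) 1 (by ring)))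
        (Or.inl ⟨d2, fun h => ?_⟩)
      exact o3 ((hdiv v).2.2 (fpt_comb h d3 (-1) 1 (by ring)))
    · show EE e t 3 (x + v)
      refine fpt_ee3 (fpt_comb d3 d3 1 0 (by ring)) (fun h => o1 (fpt_comb h d1 1 (-1) (by ring)))
        (fun h => ?_)
      exact o2 ((hdiv v).2.1 (fpt_comb h d2 1 (-1) (by ring)))
  · -- diagonal
    obtain ⟨o1, o2, o3⟩ := ho
    obtain ⟨x, hx1, hx2, d1, d2, d3⟩ := hex 0 v ((e + 3) * v) (max (KK e) (KK e + v))
    rw [sub_zero] at d1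
    have d3' : p3 e ∣ 2 * x - v :=
      fpt_comb d3 (dvd_refl (p3 e)) 2 v (by unfold p3; ring)
    have m1 : KK e ≤ x := le_trans (le_max_left _ _) hx1
    have m2 : KK e + v ≤ x := le_trans (le_max_right _ _) hx1
    have m3 : x ≤ KK e + t - 1 := by
      rcases max_cases (KK e) (KK e + v) with ⟨h, h'⟩ | ⟨h, h'⟩ <;> rw [h] at hx2 <;> omega
    have m4 : x - v ≤ KK e + t - 1 := by
      rcases max_cases (KK e) (KK e + v) with ⟨h, h'⟩ | ⟨h, h'⟩ <;> rw [h] at hx2 <;> omega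
    refine ⟨(x, x - v), mem_board.2 ⟨?_, ?_, ?_, ?_⟩, ?_, ?_⟩
    · show 1 ≤ x; omega
    · show x ≤ n; omega
    · show 1 ≤ x - v; omega
    · show x - v ≤ n; omega
    · show x - (x - v) = v; ring
    intro X hX
    fin_cases X
    · show EE e t 0 x
      exact fpt_ee0 d1 (fun h => o2 (fpt_comb d2 h (-1) 1 (by ring)))
        (fun h => o3 (fpt_comb d3' h (-1) 2 (by ring))) m1 m3
    · show EE e t 1 (x - v)
      refine fpt_ee1 (fun h => o3 (fpt_comb d3' h 1 (-2) (by ring)))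
        (Or.inr ⟨fun h => o1 (fpt_comb h d1 (-1) 1 (by ring)), d2⟩) (by omega) m4
    · exact absurd rfl hX
    · show EE e t 3 (x + (x - v))
      refine fpt_ee3 (fpt_comb d3' d3' 1 0 (by ring))
        (fun h => o1 (fpt_comb h d1 (-1) 2 (by ring)))
        (fun h => o2 (fpt_comb h d2 1 (-2) (by ring)))
  · -- antidiagonal
    obtain ⟨o1, o2, o3⟩ := ho
    obtain ⟨x, hx1, hx2, d1, d2, d3⟩ := hex 0 v ((e + 3) * v) (max (KK e) (v - (KK e + t - 1)))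
    rw [sub_zero] at d1
    have d3' : p3 e ∣ 2 * x - v :=
      fpt_comb d3 (dvd_refl (p3 e)) 2 v (by unfold p3; ring)
    have m1 : KK e ≤ x := le_trans (le_max_left _ _) hx1
    have m2 : v - (KK e + t - 1) ≤ x := le_trans (le_max_right _ _) hx1
    have m3 : x ≤ KK e + t - 1 := by
      rcases max_cases (KK e) (v - (KK e + t - 1)) with ⟨h, h'⟩ | ⟨h, h'⟩ <;> rw [h] at hx2 <;>
        omega
    have m4 : KK e ≤ v - x := by
      rcases max_cases (KK e) (v - (KK e + t - 1)) with ⟨h, h'⟩ | ⟨h, h'⟩ <;> rw [h] at hx2 <;>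
        omega
    refine ⟨(x, v - x), mem_board.2 ⟨?_, ?_, ?_, ?_⟩, ?_, ?_⟩
    · show 1 ≤ x; omega
    · show x ≤ n; omega
    · show 1 ≤ v - x; omega
    · show v - x ≤ n; omega
    · show x + (v - x) = v; ring
    intro X hX
    fin_cases X
    · show EE e t 0 x
      exact fpt_ee0 d1 (fun h => o2 (fpt_comb d2 h (-1) 1 (by ring)))
        (fun h => o3 (fpt_comb d3' h (-1) 2 (by ring))) m1 m3
    · show EE e t 1 (v - x)
      refine fpt_ee1 (fun h => o3 (fpt_comb d3' h 1 2 (by ring)))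
        (Or.inr ⟨fun h => o1 (fpt_comb h d1 1 1 (by ring)), fpt_comb d2 d2 (-1) 0 (by ring)⟩)
        m4 (by omega)
    · show EE e t 2 (x - (v - x))
      refine fpt_ee2 (fun h => o1 (fpt_comb h d1 (-1) 2 (by ring)))
        (Or.inr ⟨fun h => o2 (fpt_comb h d2 1 (-2) (by ring)), fpt_comb d3' d3' 1 0 (by ring)⟩)
    · exact absurd rfl hX

end Pool.Agent.MP_b8d9b4_co.Top
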