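import Pool.Agent.Lib.MP_b8d9b4_co.Top.Stm

/-!
# No square lies on four empty lines
-/

set_option autoImplicit false

namespace Pool.Agent.MP_b8d9b4_co.Top

theorem p_free (h1 : S_crt) : S_free := by
  intro e x y he h0 hy h2 h3
  obtain ⟨-, -, hdiv⟩ := h1 e he
  obtain ⟨a1, a2, a3⟩ : p1 e ∣ x ∧ ¬ p2 e ∣ x ∧ ¬ p3 e ∣ x := h0
  obtain ⟨-, b⟩ : ¬ p3 e ∣ y ∧ ((p1 e ∣ y ∧ ¬ p2 e ∣ y) ∨ (¬ p1 e ∣ y ∧ p2 e ∣ y)) := hy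
  obtain ⟨-, c⟩ : ¬ p1 e ∣ x - y ∧ ((p2 e ∣ x - y ∧ ¬ p3 e ∣ x - y) ∨
    (¬ p2 e ∣ x - y ∧ p3 e ∣ x - y)) := h2
  obtain ⟨d3, d1, -⟩ : p3 e ∣ x + y ∧ ¬ p1 e ∣ x + y ∧ ¬ p2 e ∣ x + y := h3
  rcases b with ⟨b, -⟩ | ⟨-, b⟩
  · exact d1 (dvd_add a1 b)
  · rcases c with ⟨c, -⟩ | ⟨-, c⟩
    · have h4 := dvd_add c b
      rw [sub_add_cancel] at h4
      exact a2 h4
    · have h4 := dvd_add c d3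
      rw [show x - y + (x + y) = 2 * x by ring] at h4
      exact a3 ((hdiv x).2.2 h4)

end Pool.Agent.MP_b8d9b4_co.Top
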