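import Pool.Agent.Lib.MP_b8d9b4_co.Top.Stm

/-!
# Facts on all graphs
-/

set_option autoImplicit false

namespace Pool.Agent.MP_b8d9b4_co.Top

/-- a minimal dominating set is irredundant -/
private lemma gr_irr {V : Type} [DecidableEq V] (G : SimpleGraph V) (S : Finset V)
    (h : IsMinDominating G S) : IsIrredundant G S := by
  intro v hv
  by_contra hno
  push Not at hno
  -- then the set without `v` is dominating
  have hdom : IsDominating G (S.erase v) := by
    intro w
    obtain ⟨u, hu, huw⟩ := h.prop w
    by_cases huv : u = v
    · subst huv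
      obtain ⟨u', hu', hne, hw'⟩ := hno w huw
      exact ⟨u', Finset.mem_erase.2 ⟨hne, hu'⟩, hw'⟩
    · exact ⟨u, Finset.mem_erase.2 ⟨huv, hu⟩, huw⟩
  have hle : S ≤ S.erase v := h.le_of_le hdom (Finset.erase_subset v S)
  exact absurd (hle hv) (Finset.notMem_erase v S)

theorem p_gr : S_gr := by
  intro V _ _ G S
  constructor
  · intro h
    refine ⟨gr_irr G S h, ?_⟩
    intro T hT hST u hu
    by_contra huS
    obtain ⟨w, _, hpriv⟩ := hT u hu
    obtain ⟨v, hv, hvw⟩ := h.prop w
    have hvT : v ∈ T := hST hv
    have hne : v ≠ u := fun e => huS (e ▸ hv)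
    exact hpriv v hvT hne hvw
  · intro h
    have hind : G.IsIndepSet (S : Set V) := h.prop
    refine ⟨?_, ?_⟩
    · intro w
      by_contra hno
      push Not at hno
      have hins : G.IsIndepSet ((insert w S : Finset V) : Set V) := by
        rw [Finset.coe_insert, SimpleGraph.isIndepSet_iff]
        intro a ha b hb hab
        rcases Set.mem_insert_iff.1 ha with ha | ha <;> rcases Set.mem_insert_iff.1 hb with hb | hb
        · exact absurd (ha.trans hb.symm) hab
        · intro hadj
          have := hno b (Finset.mem_coe.1 hb)
          exact this (Or.inr (ha ▸ hadj.symm))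
        · intro hadj
          have := hno a (Finset.mem_coe.1 ha)
          exact this (Or.inr (hb ▸ hadj))
        · exact (SimpleGraph.isIndepSet_iff G).1 hind ha hb hab
      have hle : insert w S ≤ S := h.le_of_ge hins (Finset.subset_insert w S)
      have hw : w ∈ S := hle (Finset.mem_insert_self w S)
      exact hno w hw (Or.inl rfl)
    · intro T hT hTS v hv
      by_contra hvT
      obtain ⟨u, hu, huv⟩ := hT v
      have huS : u ∈ S := hTS hu
      rcases huv with huv | huv
      · exact hvT (huv ▸ hu)
      · have hne : u ≠ v := fun e => hvT (e ▸ hu)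
        exact (SimpleGraph.isIndepSet_iff G).1 hind (Finset.mem_coe.2 huS) (Finset.mem_coe.2 hv) hne
          huv

end Pool.Agent.MP_b8d9b4_co.Top
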