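import Pool.Agent.Lib.MP_b8d9b4_co.Top.Stm

/-!
# MP_b8d9b4_co, sizes of minimal dominating sets of the queens graph: piece `main`
-/

set_option autoImplicit false

namespace Pool.Agent.MP_b8d9b4_co.Top

theorem main_num (e n : ℤ) (he : 500 ≤ e) (hn : 100 * p2 e ^ 4 ≤ n) :
    0 < p2 e ∧ 0 ≤ KK e ∧ 4 * KK e ≤ n ∧ 60 * KK e + 5 * (KK e * p2 e) + 152 * p2 e ≤ 2 * n := by
  obtain ⟨p, hp⟩ : ∃ p : ℤ, p = p2 e := ⟨_, rfl⟩
  have hp1 : 1001 ≤ p := by
    rw [hp]
    unfold p2
    linarith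
  have hK : KK e = p ^ 3 + 6 * p ^ 2 + 8 * p := by
    rw [hp]
    unfold KK p1 p2 p3
    ring
  have h2 : 1001 * p ≤ p ^ 2 := by nlinarith
  have h3 : 1001 * p ^ 2 ≤ p ^ 3 := by nlinarith [sq_nonneg p]
  have h4 : 1001 * p ^ 3 ≤ p ^ 4 := by
    have h0 : 0 ≤ p ^ 3 := by positivity
    nlinarith
  have h5 : KK e * p = p ^ 4 + 6 * p ^ 3 + 8 * p ^ 2 := by
    rw [hK]
    ring
  rw [← hp] at hn ⊢
  rw [h5, hK]
  refine ⟨by linarith, by linarith, by linarith, by linarith⟩

theorem p_main (h1 : S_core) (h2 : S_cfg) (h3 : S_cz) (h4 : S_cphi) (h5 : S_cphi0)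
    (h6 : S_cown) : S_main := by
  intro e n he hn k hk1 hk2
  obtain ⟨hp, hK0, hKn, hnum⟩ := main_num e n he hn
  obtain ⟨c1, c2, c3⟩ := h6 e n he hKn
  have hf := h4 e n he hKn
  have hf0 := h5 e n he hKn
  -- the number of additional queens
  have hz : ∀ t : ℤ, KK e ≤ t → t ≤ n - 2 * KK e + 1 →
      ((ZB e n t).card : ℤ) + KK e + 20 ≤ ((PhiB e n).card : ℤ) := by
    intro t ht1 ht2
    have hz1 := h3 e n t he ht1 ht2
    have h7 : (((ZB e n t).card : ℤ) + KK e + 20) * p2 e ≤ ((PhiB e n).card : ℤ) * p2 e := by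
      nlinarith
    exact le_of_mul_le_mul_right h7 hp
  -- the last window is large enough
  have htop : (k : ℤ) + (Phi0B e n).card ≤ (ownB e n (n - 2 * KK e + 1)).card := by
    have h7 : ((k : ℤ) + KK e) * p2 e ≤ ((ownB e n (n - 2 * KK e + 1)).card : ℤ) * p2 e := by
      nlinarith
    have h8 := le_of_mul_le_mul_right h7 hp
    linarith
  -- it is enough to find a window
  have hwin : ∀ t : ℤ, KK e ≤ t → t ≤ n - 2 * KK e + 1 →
      (ownB e n t).card + (ZB e n t).card ≤ k + (PhiB e n).card →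
      k + (Phi0B e n).card ≤ (ownB e n t).card → ∃ S : Finset Sq, MinDom n S ∧ S.card = k := by
    intro t ht1 ht2 ha hb
    exact h1 n _ _ _ _ _ _ (h2 e n t he ht1 ht2) k ha hb
  -- the smallest window
  have hex : ∃ i : ℕ, k + (Phi0B e n).card ≤ (ownB e n (KK e + i)).card := by
    refine ⟨(n - 3 * KK e + 1).toNat, ?_⟩
    have h7 : KK e + ((n - 3 * KK e + 1).toNat : ℤ) = n - 2 * KK e + 1 := by
      rw [Int.toNat_of_nonneg (by linarith)]
      ring
    rw [h7]
    exact_mod_cast htop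
  classical
  obtain ⟨i, hi⟩ : ∃ i, i = Nat.find hex := ⟨_, rfl⟩
  have hi1 : k + (Phi0B e n).card ≤ (ownB e n (KK e + i)).card := by
    rw [hi]
    exact Nat.find_spec hex
  have hi2 : (i : ℤ) ≤ n - 3 * KK e + 1 := by
    have h7 : i ≤ (n - 3 * KK e + 1).toNat := by
      rw [hi]
      apply Nat.find_min'
      have h7 : KK e + ((n - 3 * KK e + 1).toNat : ℤ) = n - 2 * KK e + 1 := by
        rw [Int.toNat_of_nonneg (by linarith)]
        ring
      rw [h7]
      exact_mod_cast htop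
    have h8 : (i : ℤ) ≤ ((n - 3 * KK e + 1).toNat : ℤ) := by exact_mod_cast h7
    rw [Int.toNat_of_nonneg (by linarith)] at h8
    exact h8
  have ht1 : KK e ≤ KK e + i := by
    have : (0 : ℤ) ≤ i := Int.natCast_nonneg _
    linarith
  have ht2 : KK e + i ≤ n - 2 * KK e + 1 := by linarith
  have hzi := hz (KK e + i) ht1 ht2
  apply hwin (KK e + i) ht1 ht2 _ hi1
  have goal : ((ownB e n (KK e + i)).card : ℤ) + ((ZB e n (KK e + i)).card : ℤ) ≤
      (k : ℤ) + ((PhiB e n).card : ℤ) := by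
    rcases Nat.eq_zero_or_pos i with h0 | h0
    · have h7 : KK e + (i : ℤ) = KK e := by
        rw [h0]
        simp
      rw [h7] at hzi ⊢
      linarith
    · obtain ⟨j, hj⟩ : ∃ j, i = j + 1 := ⟨i - 1, by omega⟩
      have h7 : ¬ (k + (Phi0B e n).card ≤ (ownB e n (KK e + j)).card) := by
        apply Nat.find_min hex
        rw [← hi]
        omega
      have h8 : (ownB e n (KK e + j + 1)).card ≤ (ownB e n (KK e + j)).card + 4 := by
        apply c1
        have : (0 : ℤ) ≤ j := Int.natCast_nonneg _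
        linarith
      have h9 : KK e + (i : ℤ) = KK e + j + 1 := by
        rw [hj]
        push_cast
        ring
      rw [h9] at hzi ⊢
      have h10 : ((ownB e n (KK e + j + 1)).card : ℤ) ≤
          (k : ℤ) + ((Phi0B e n).card : ℤ) + 3 := by
        have h11 : (ownB e n (KK e + j + 1)).card ≤ k + (Phi0B e n).card + 3 := by omega
        exact_mod_cast h11
      linarith
  exact_mod_cast goal

end Pool.Agent.MP_b8d9b4_co.Top
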