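import Pool.Agent.Lib.MP_b8d9b4_co.Top.Stm

/-! # Membership in `needB` -/

set_option autoImplicit false

namespace Pool.Agent.MP_b8d9b4_co.Top

private lemma mneed_img (s : Finset ℤ) (Y X : Fin 4) (v : ℤ) :
    ((X, v) : Line) ∈ s.image (fun w => ((Y, w) : Line)) ↔ Y = X ∧ v ∈ s := by
  rw [Finset.mem_image]
  constructor
  · rintro ⟨w, hw, h⟩
    rw [Prod.mk.injEq] at h
    exact ⟨h.1, h.2 ▸ hw⟩
  · rintro ⟨h1, h2⟩
    exact ⟨v, h2, by rw [h1]⟩

open Classical in
theorem p_mneed : S_mneed := by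
  intro e n t X v
  unfold needB
  rw [Finset.mem_filter, Finset.mem_union, Finset.mem_union, Finset.mem_union, mneed_img, mneed_img,
    mneed_img, mneed_img, Finset.mem_Icc, Finset.mem_Icc, Finset.mem_Icc]
  fin_cases X <;> simp <;> tauto

end Pool.Agent.MP_b8d9b4_co.Top
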