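import Pool.Agent.Lib.MP_b8d9b4_co.Top.Stm

/-!
# MP_b8d9b4_co, project TOP: membership in `ownB`
-/

set_option autoImplicit false

namespace Pool.Agent.MP_b8d9b4_co.Top

theorem p_mown : S_mown := by
  intro e n t X v
  unfold ownB
  simp only [Finset.mem_union, Finset.mem_image, Finset.mem_filter, Finset.mem_Icc, Prod.mk.injEq]
  fin_cases X
  · constructor
    · rintro (((⟨w, ⟨h1, h2⟩, -, h4⟩ | ⟨w, -, h3, -⟩) | ⟨w, -, h3, -⟩) | ⟨w, -, h3, -⟩)
      · subst h4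
        exact ⟨h2, h1⟩
      · exact absurd h3 (by decide)
      · exact absurd h3 (by decide)
      · exact absurd h3 (by decide)
    · rintro ⟨h2, h1⟩
      exact Or.inl (Or.inl (Or.inl ⟨v, ⟨h1, h2⟩, rfl, rfl⟩))
  · constructor
    · rintro (((⟨w, -, h3, -⟩ | ⟨w, ⟨h1, h2⟩, -, h4⟩) | ⟨w, -, h3, -⟩) | ⟨w, -, h3, -⟩)
      · exact absurd h3 (by decide)
      · subst h4
        exact ⟨h2, h1⟩
      · exact absurd h3 (by decide)
      · exact absurd h3 (by decide)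
    · rintro ⟨h2, h1⟩
      exact Or.inl (Or.inl (Or.inr ⟨v, ⟨h1, h2⟩, rfl, rfl⟩))
  · constructor
    · rintro (((⟨w, -, h3, -⟩ | ⟨w, -, h3, -⟩) | ⟨w, ⟨h1, h2⟩, -, h4⟩) | ⟨w, -, h3, -⟩)
      · exact absurd h3 (by decide)
      · exact absurd h3 (by decide)
      · subst h4
        exact ⟨h2, h1⟩
      · exact absurd h3 (by decide)
    · rintro ⟨h2, h1⟩
      exact Or.inl (Or.inr ⟨v, ⟨h1, h2⟩, rfl, rfl⟩)
  · constructor
    · rintro (((⟨w, -, h3, -⟩ | ⟨w, -, h3, -⟩) | ⟨w, -, h3, -⟩) | ⟨w, ⟨h1, h2⟩, -, h4⟩)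
      · exact absurd h3 (by decide)
      · exact absurd h3 (by decide)
      · exact absurd h3 (by decide)
      · subst h4
        exact ⟨h2, h1⟩
    · rintro ⟨h2, h1⟩
      exact Or.inr ⟨v, ⟨h1, h2⟩, rfl, rfl⟩

end Pool.Agent.MP_b8d9b4_co.Top
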