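import Pool.Agent.Lib.MP_b8d9b4_co.Top.Stm

set_option autoImplicit false

namespace Pool.Agent.MP_b8d9b4_co.Top

theorem p_mphi : S_mphi := by
  intro e n u
  unfold PhiB rowsB
  simp only [Finset.mem_biUnion, Finset.mem_Icc, Finset.mem_image, Finset.mem_filter]
  constructor
  · rintro ⟨j, ⟨h1, h2⟩, r, ⟨⟨h3, h4⟩, h5, h6, h7⟩, rfl⟩
    exact ⟨j, h1, h2, h3, h4, h5, h6, h7, rfl⟩
  · rintro ⟨j, h1, h2, h3, h4, h5, h6, h7, h8⟩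
    refine ⟨j, ⟨h1, h2⟩, u.2, ⟨⟨h3, h4⟩, h5, h6, h7⟩, ?_⟩
    exact Prod.ext h8.symm rfl

end Pool.Agent.MP_b8d9b4_co.Top
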