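import Pool.Agent.Lib.MP_b8d9b4_co.Top.Stm

/-!
# MP_b8d9b4_co, sizes of minimal dominating sets of the queens graph: piece oth
-/

set_option autoImplicit false

namespace Pool.Agent.MP_b8d9b4_co.Top

/-- [TOP oth] the other lines through a position are neither own nor empty -/
theorem p_oth : S_oth := by
  intro e n l q h X hX
  obtain ⟨Y, v⟩ := l
  obtain ⟨-, -, h⟩ := h
  obtain ⟨x, y⟩ := q
  fin_cases Y <;> fin_cases X <;> first
    | exact absurd rfl hX
    | (simp only [lv, OO, FF] at h ⊢; tauto)

end Pool.Agent.MP_b8d9b4_co.Top
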