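import Pool.Agent.Lib.MP_b8d9b4_co.Top.Stm

/-!
# MP_b8d9b4_co, piece phi: the merged queens
-/

set_option autoImplicit false

namespace Pool.Agent.MP_b8d9b4_co.Top

attribute [local irreducible] PhiB

private theorem phi_small (e m : ℤ) (he : 500 ≤ e) (h : p2 e ∣ m) (h1 : -481 ≤ m) (h2 : m ≤ 481) : m = 0 := by
  apply Int.eq_zero_of_abs_lt_dvd h
  rw [abs_lt]
  unfold p2
  constructor <;> linarith

private theorem phi_dec (e j : ℤ) : 2 * (p1 e * p3 e) * j = p2 e * (2 * (p2 e + 6) * j) + 16 * j := by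
  unfold p1 p2 p3
  ring

private theorem phi_d (e r j : ℤ) (h : p2 e ∣ r + 8 * j) :
    p2 e ∣ (r + 2 * (p1 e * p3 e) * j) - 8 * j := by
  have : (r + 2 * (p1 e * p3 e) * j) - 8 * j = (r + 8 * j) + p2 e * (2 * (p2 e + 6) * j) := by
    rw [phi_dec]; ring
  rw [this]
  exact dvd_add h (dvd_mul_right _ _)

private theorem phi_oor (e r j : ℤ) (he : 500 ≤ e) (hj1 : 1 ≤ j) (hj2 : j ≤ 60)
    (h : p2 e ∣ r + 8 * j) (ha : ¬ p1 e ∣ r) (hb : ¬ p3 e ∣ r) : OO e r := by
  refine ⟨ha, ?_, hb⟩
  intro h2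
  have h3 : p2 e ∣ 8 * j := by
    have := dvd_sub h h2
    rwa [show r + 8 * j - r = 8 * j by ring] at this
  have := phi_small e (8 * j) he h3 (by linarith) (by linarith)
  linarith

private theorem phi_ooc (e r j : ℤ) (he : 500 ≤ e) (hj1 : 1 ≤ j) (hj2 : j ≤ 60)
    (h : p2 e ∣ r + 8 * j) (ha : ¬ p1 e ∣ r) (hb : ¬ p3 e ∣ r) :
    OO e (r + 2 * (p1 e * p3 e) * j) := by
  refine ⟨?_, ?_, ?_⟩
  · intro h1
    apply ha
    have h4 : p1 e ∣ 2 * (p1 e * p3 e) * j := ⟨2 * p3 e * j, by ring⟩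
    have := dvd_sub h1 h4
    rwa [show r + 2 * (p1 e * p3 e) * j - 2 * (p1 e * p3 e) * j = r by ring] at this
  · intro h2
    have h3 := dvd_sub h2 (phi_d e r j h)
    rw [show r + 2 * (p1 e * p3 e) * j - (r + 2 * (p1 e * p3 e) * j - 8 * j) = 8 * j by ring] at h3
    have := phi_small e (8 * j) he h3 (by linarith) (by linarith)
    linarith
  · intro h1
    apply hb
    have h4 : p3 e ∣ 2 * (p1 e * p3 e) * j := ⟨2 * p1 e * j, by ring⟩
    have := dvd_sub h1 h4
    rwa [show r + 2 * (p1 e * p3 e) * j - 2 * (p1 e * p3 e) * j = r by ring] at this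

private theorem phi_le (e j : ℤ) (he : 500 ≤ e) (hj1 : 1 ≤ j) (hj2 : j ≤ 60) :
    0 ≤ 2 * (p1 e * p3 e) * j ∧ 2 * (p1 e * p3 e) * j ≤ KK e := by
  have hp : 0 ≤ p1 e * p3 e := by
    unfold p1 p3
    apply mul_nonneg <;> linarith
  constructor
  · apply mul_nonneg
    · linarith
    · linarith
  · have h1 : KK e = (p1 e * p3 e) * p2 e := by unfold KK; ring
    rw [h1, show 2 * (p1 e * p3 e) * j = (p1 e * p3 e) * (2 * j) by ring]
    apply mul_le_mul_of_nonneg_left _ hp
    unfold p2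
    linarith

private theorem phi_K (e : ℤ) (he : 500 ≤ e) : 1 ≤ KK e := by
  have h1 : 1 ≤ p1 e := by unfold p1; linarith
  have h2 : 1 ≤ p2 e := by unfold p2; linarith
  have h3 : 1 ≤ p3 e := by unfold p3; linarith
  have : 0 < KK e := by
    unfold KK
    exact mul_pos (mul_pos (by linarith) (by linarith)) (by linarith)
  linarith

theorem p_phi (h1 : S_mphi) (h2 : S_mown) (_h3 : S_crt) : S_phi := by
  intro e n t he hKt htn
  have hK := phi_K e he
  constructor
  · intro u hu
    obtain ⟨j, hj1, hj2, hu1, hu2, hd, ha, hb, hc⟩ := (h1 e n u).1 hu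
    obtain ⟨hle0, hle⟩ := phi_le e j he hj1 hj2
    have hr1 : 1 ≤ u.2 := by linarith
    have hr2 : u.2 ≤ n := by linarith
    have hc1 : 1 ≤ u.1 := by rw [hc]; linarith
    have hc2 : u.1 ≤ n := by rw [hc]; linarith
    refine ⟨mem_board.2 ⟨hc1, hc2, hr1, hr2⟩, ?_, ?_, ?_⟩
    · rw [h2]
      refine ⟨?_, hc1, hc2⟩
      rw [hc]
      exact phi_ooc e u.2 j he hj1 hj2 hd ha hb
    · rw [h2]
      exact ⟨phi_oor e u.2 j he hj1 hj2 hd ha hb, hr1, hr2⟩
    · have hdd : p1 e ∣ lv 2 u := by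
        show p1 e ∣ u.1 - u.2
        rw [hc]
        exact ⟨2 * p3 e * j, by ring⟩
      have haa : p2 e ∣ lv 3 u := by
        show p2 e ∣ u.1 + u.2
        have h5 := phi_d e u.2 j hd
        rw [← hc] at h5
        have := dvd_add h5 hd
        rwa [show u.1 - 8 * j + (u.2 + 8 * j) = u.1 + u.2 by ring] at this
      intro X hX0 hX1
      have hX : X = 2 ∨ X = 3 := by
        fin_cases X
        · exact absurd rfl hX0
        · exact absurd rfl hX1
        · exact Or.inl rfl
        · exact Or.inr rfl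
      rcases hX with rfl | rfl
      · constructor
        · intro h
          exact ((h2 e n t 2 _).1 h).1.1 hdd
        · intro h
          exact (show ¬ p1 e ∣ lv 2 u ∧ _ from h.1).1 hdd
      · constructor
        · intro h
          exact ((h2 e n t 3 _).1 h).1.2.1 haa
        · intro h
          exact (show p3 e ∣ lv 3 u ∧ ¬ p1 e ∣ lv 3 u ∧ ¬ p2 e ∣ lv 3 u from h.1).2.2 haa
  · intro u hu u' hu' hne
    obtain ⟨j, hj1, hj2, _, _, hd, _, _, hc⟩ := (h1 e n u).1 hu
    obtain ⟨j', hj1', hj2', _, _, hd', _, _, hc'⟩ := (h1 e n u').1 hu'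
    constructor
    · intro h
      apply hne
      have h5 := phi_d e u.2 j hd
      rw [← hc, h] at h5
      have h6 := phi_d e u'.2 j' hd'
      rw [← hc'] at h6
      have h7 := dvd_sub h6 h5
      rw [show u'.1 - 8 * j' - (u'.1 - 8 * j) = 8 * (j - j') by ring] at h7
      have h8 := phi_small e _ he h7 (by linarith) (by linarith)
      have h9 : j = j' := by linarith
      subst h9
      have : u.2 = u'.2 := by
        rw [hc, hc'] at h
        linarith
      exact Prod.ext h this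
    · intro h
      apply hne
      rw [h] at hd
      have h7 := dvd_sub hd hd'
      rw [show u'.2 + 8 * j - (u'.2 + 8 * j') = 8 * (j - j') by ring] at h7
      have h8 := phi_small e _ he h7 (by linarith) (by linarith)
      have h9 : j = j' := by linarith
      subst h9
      have : u.1 = u'.1 := by
        rw [hc, hc', h]
      exact Prod.ext this h

end Pool.Agent.MP_b8d9b4_co.Top
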