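import Pool.Agent.Lib.MP_b8d9b4_co.Top.Stm

/-!
# Piece pos: the positions of the queens exist
-/

set_option autoImplicit false

namespace Pool.Agent.MP_b8d9b4_co.Top

private lemma pos_bb {e n : ℤ} {l : Line} (h : ∃ q, Pos e n l q) : Pos e n l (bb e n l) := by
  unfold bb
  rw [dif_pos h]
  exact h.choose_spec

private lemma pos_KK {e : ℤ} (he : 1 ≤ e) : 0 < KK e := by
  unfold KK p1 p2 p3
  positivity

private lemma pos_mid {e v x : ℤ} (h : p1 e ∣ x - (e + 2) * v) : p1 e ∣ x + (x - v) := by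
  obtain ⟨c, hc⟩ := h
  refine ⟨2 * c + v, ?_⟩
  unfold p1 at *
  linear_combination 2 * hc

theorem p_pos (h1 : S_crt) : S_pos := by
  intro e n he hn l hl
  obtain ⟨X, v⟩ := l
  apply pos_bb
  have hK := pos_KK he
  have hcrt := (h1 e he).1
  fin_cases X
  · obtain ⟨hl1, hl2⟩ : 1 ≤ v ∧ v ≤ n := hl
    obtain ⟨y, y1, y2, y3, y4, y5⟩ := hcrt v (-v) 0 (n - KK e + 1)
    rw [sub_zero] at y5
    rw [sub_neg_eq_add] at y4
    refine ⟨(v, y), mem_board.2 ⟨hl1, hl2, ?_, ?_⟩, rfl, ?_, y5, ?_, ?_⟩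
    · show 1 ≤ y
      linarith
    · show y ≤ n
      linarith
    · show n - KK e < y
      linarith
    · show p1 e ∣ v - y
      rw [← neg_sub, dvd_neg]
      exact y3
    · show p2 e ∣ v + y
      rw [add_comm]
      exact y4
  · obtain ⟨hl1, hl2⟩ : 1 ≤ v ∧ v ≤ n := hl
    obtain ⟨x, y1, y2, y3, y4, y5⟩ := hcrt v (-v) 0 1
    rw [sub_zero] at y5
    rw [sub_neg_eq_add] at y4
    refine ⟨(x, v), mem_board.2 ⟨y1, ?_, hl1, hl2⟩, rfl, ?_, y5, y3, y4⟩
    · show x ≤ n
      linarith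
    · show x ≤ KK e
      linarith
  · obtain ⟨hl1, hl2⟩ : -(n - KK e) ≤ v ∧ v ≤ n - KK e := hl
    obtain ⟨x, y1, y2, y3, y4, y5⟩ := hcrt ((e + 2) * v) 0 v (max 1 (1 + v))
    rw [sub_zero] at y4
    have hx1 := le_trans (le_max_left _ _) y1
    have hx2 := le_trans (le_max_right _ _) y1
    have hm : max 1 (1 + v) + KK e ≤ n + 1 ∧ max 1 (1 + v) + KK e ≤ n + 1 + v := by
      rcases max_choice (1 : ℤ) (1 + v) with h | h
      · rw [h]
        have := le_trans (le_max_right (1 : ℤ) (1 + v)) h.le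
        constructor <;> linarith
      · rw [h]
        constructor <;> linarith
    obtain ⟨m1, m2⟩ := hm
    refine ⟨(x, x - v), mem_board.2 ⟨hx1, ?_, ?_, ?_⟩, ?_, y5, y4, pos_mid y3⟩
    · show x ≤ n
      linarith
    · show 1 ≤ x - v
      linarith
    · show x - v ≤ n
      linarith
    · show x - (x - v) = v
      ring
  · obtain ⟨hl1, hl2⟩ : KK e + 1 ≤ v ∧ v ≤ 2 * n - KK e + 1 := hl
    obtain ⟨x, y1, y2, y3, y4, y5⟩ := hcrt ((e + 2) * v) 0 v (max 1 (v - n))
    rw [sub_zero] at y4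
    have hx1 := le_trans (le_max_left _ _) y1
    have hx2 := le_trans (le_max_right _ _) y1
    have hm : max 1 (v - n) + KK e ≤ n + 1 ∧ max 1 (v - n) + KK e ≤ v := by
      rcases max_choice (1 : ℤ) (v - n) with h | h
      · rw [h]
        constructor <;> linarith
      · rw [h]
        constructor <;> linarith
    obtain ⟨m1, m2⟩ := hm
    refine ⟨(x, v - x), mem_board.2 ⟨hx1, ?_, ?_, ?_⟩, ?_, ?_, y4, ?_⟩
    · show x ≤ n
      linarith
    · show 1 ≤ v - x
      linarith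
    · show v - x ≤ n
      linarith
    · show x + (v - x) = v
      ring
    · show p3 e ∣ v - x
      rw [← neg_sub, dvd_neg]
      exact y5
    · show p1 e ∣ x - (v - x)
      have h2 := pos_mid y3
      have h3 : x - (v - x) = x + (x - v) := by ring
      rw [h3]
      exact h2

end Pool.Agent.MP_b8d9b4_co.Top
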