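import Pool.Agent.Lib.MP_b8d9b4_co.Top.Stm

/-!
# The sizes `n - 1 .. 2 n - 11`
-/

set_option autoImplicit false

namespace Pool.Agent.MP_b8d9b4_co.Top

/-- the own lines -/
private noncomputable def stA_own (n : ℤ) : Finset Line :=
  (Finset.Icc (6 : ℤ) n).image (fun v => ((0, v) : Line)) ∪
    (Finset.Icc (6 : ℤ) n).image (fun v => ((1, v) : Line))

private lemma stA_mem_own (n : ℤ) (X : Fin 4) (v : ℤ) :
    ((X, v) : Line) ∈ stA_own n ↔ (X = 0 ∨ X = 1) ∧ 6 ≤ v ∧ v ≤ n := by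
  unfold stA_own
  rw [Finset.mem_union, Finset.mem_image, Finset.mem_image]
  constructor
  · rintro (⟨w, hw, he⟩ | ⟨w, hw, he⟩)
    · rw [Finset.mem_Icc] at hw
      rw [Prod.mk.injEq] at he
      exact ⟨Or.inl he.1.symm, by omega, by omega⟩
    · rw [Finset.mem_Icc] at hw
      rw [Prod.mk.injEq] at he
      exact ⟨Or.inr he.1.symm, by omega, by omega⟩
  · rintro ⟨h | h, h6, hn⟩
    · exact Or.inl ⟨v, Finset.mem_Icc.2 ⟨h6, hn⟩, by rw [h]⟩
    · exact Or.inr ⟨v, Finset.mem_Icc.2 ⟨h6, hn⟩, by rw [h]⟩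

/-- the empty lines -/
private def stA_E (X : Fin 4) (v : ℤ) : Prop :=
  match X with
  | 0 => v = 4 ∨ v = 5
  | 1 => v = 3 ∨ v = 4
  | 2 => v % 2 = 1 ∧ v ≠ 1
  | 3 => v % 2 = 1 ∧ v ≠ 3

/-- the queens of the own lines -/
private def stA_b (l : Line) : Sq :=
  if l.1 = 0 then (l.2, if l.2 % 2 = 0 then 2 else 1)
  else (if l.2 % 2 = 0 then 2 else 1, l.2)

private def stA_Z : Finset Sq := {(1, 1), (2, 2), (3, 5), (2, 1)}

private noncomputable def stA_Phi (n : ℤ) : Finset Sq := (Finset.Icc (6 : ℤ) n).image (fun r => ((r, r) : Sq))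

private lemma stA_mem_Phi (n : ℤ) (u : Sq) : u ∈ stA_Phi n ↔ u.1 = u.2 ∧ 6 ≤ u.1 ∧ u.1 ≤ n := by
  unfold stA_Phi
  rw [Finset.mem_image]
  constructor
  · rintro ⟨r, hr, rfl⟩
    rw [Finset.mem_Icc] at hr
    exact ⟨rfl, hr.1, hr.2⟩
  · rintro ⟨h1, h2, h3⟩
    exact ⟨u.1, Finset.mem_Icc.2 ⟨h2, h3⟩, Prod.ext rfl h1⟩

private lemma stA_cfg (n : ℤ) (hn : 10 ≤ n) :
    Cfg n (stA_own n) stA_E stA_b stA_Z (stA_Phi n) {(n, n)} where
  ownE := by
    rintro ⟨X, v⟩ hl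
    rw [stA_mem_own] at hl
    obtain ⟨rfl | rfl, h6, hn⟩ := hl
    · show ¬ (v = 4 ∨ v = 5)
      omega
    · show ¬ (v = 3 ∨ v = 4)
      omega
  b_mem := by
    rintro ⟨X, v⟩ hl
    rw [stA_mem_own] at hl
    obtain ⟨rfl | rfl, h6, hn⟩ := hl
    · rw [mem_board]
      show 1 ≤ v ∧ v ≤ n ∧ 1 ≤ (if v % 2 = 0 then (2 : ℤ) else 1) ∧
        (if v % 2 = 0 then (2 : ℤ) else 1) ≤ n
      split_ifs <;> omega
    · rw [mem_board]
      show 1 ≤ (if v % 2 = 0 then (2 : ℤ) else 1) ∧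
        (if v % 2 = 0 then (2 : ℤ) else 1) ≤ n ∧ 1 ≤ v ∧ v ≤ n
      split_ifs <;> omega
  b_on := by
    rintro ⟨X, v⟩ hl
    rw [stA_mem_own] at hl
    obtain ⟨rfl | rfl, h6, hn⟩ := hl
    · rfl
    · rfl
  b_oth := by
    rintro ⟨X, v⟩ hl Y hY
    rw [stA_mem_own] at hl
    rw [stA_mem_own]
    obtain ⟨rfl | rfl, h6, hn⟩ := hl
    · have hb : stA_b ((0, v) : Line) = (v, if v % 2 = 0 then 2 else 1) := rfl
      rw [hb]
      fin_cases Y
      · exact absurd rfl hY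
      · refine ⟨?_, ?_⟩
        · show ¬ (_ ∧ 6 ≤ (if v % 2 = 0 then (2 : ℤ) else 1) ∧ _)
          split_ifs <;> omega
        · show ¬ ((if v % 2 = 0 then (2 : ℤ) else 1) = 3 ∨ (if v % 2 = 0 then (2 : ℤ) else 1) = 4)
          split_ifs <;> omega
      · refine ⟨?_, ?_⟩
        · rintro ⟨h | h, _⟩
          · exact absurd h (by decide)
          · exact absurd h (by decide)
        · show ¬ ((v - (if v % 2 = 0 then (2 : ℤ) else 1)) % 2 = 1 ∧
            (v - (if v % 2 = 0 then (2 : ℤ) else 1)) ≠ 1)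
          split_ifs <;> omega
      · refine ⟨?_, ?_⟩
        · rintro ⟨h | h, _⟩
          · exact absurd h (by decide)
          · exact absurd h (by decide)
        · show ¬ ((v + (if v % 2 = 0 then (2 : ℤ) else 1)) % 2 = 1 ∧
            (v + (if v % 2 = 0 then (2 : ℤ) else 1)) ≠ 3)
          split_ifs <;> omega
    · have hb : stA_b ((1, v) : Line) = (if v % 2 = 0 then 2 else 1, v) := rfl
      rw [hb]
      fin_cases Y
      · refine ⟨?_, ?_⟩
        · show ¬ (_ ∧ 6 ≤ (if v % 2 = 0 then (2 : ℤ) else 1) ∧ _)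
          split_ifs <;> omega
        · show ¬ ((if v % 2 = 0 then (2 : ℤ) else 1) = 4 ∨ (if v % 2 = 0 then (2 : ℤ) else 1) = 5)
          split_ifs <;> omega
      · exact absurd rfl hY
      · refine ⟨?_, ?_⟩
        · rintro ⟨h | h, _⟩
          · exact absurd h (by decide)
          · exact absurd h (by decide)
        · show ¬ (((if v % 2 = 0 then (2 : ℤ) else 1) - v) % 2 = 1 ∧
            ((if v % 2 = 0 then (2 : ℤ) else 1) - v) ≠ 1)
          split_ifs <;> omega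
      · refine ⟨?_, ?_⟩
        · rintro ⟨h | h, _⟩
          · exact absurd h (by decide)
          · exact absurd h (by decide)
        · show ¬ (((if v % 2 = 0 then (2 : ℤ) else 1) + v) % 2 = 1 ∧
            ((if v % 2 = 0 then (2 : ℤ) else 1) + v) ≠ 3)
          split_ifs <;> omega
  priv := by
    rintro ⟨X, v⟩ hl
    rw [stA_mem_own] at hl
    obtain ⟨rfl | rfl, h6, hn⟩ := hl
    · -- column
      rcases Int.emod_two_eq_zero_or_one v with hv | hv
      · refine ⟨(v, 3), ?_, rfl, ?_⟩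
        · rw [mem_board]
          show 1 ≤ v ∧ v ≤ n ∧ (1 : ℤ) ≤ 3 ∧ (3 : ℤ) ≤ n
          omega
        · intro Y hY
          fin_cases Y
          · exact absurd rfl hY
          · show (3 : ℤ) = 3 ∨ (3 : ℤ) = 4
            omega
          · show (v - 3) % 2 = 1 ∧ v - 3 ≠ 1
            omega
          · show (v + 3) % 2 = 1 ∧ v + 3 ≠ 3
            omega
      · refine ⟨(v, 4), ?_, rfl, ?_⟩
        · rw [mem_board]
          show 1 ≤ v ∧ v ≤ n ∧ (1 : ℤ) ≤ 4 ∧ (4 : ℤ) ≤ n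
          omega
        · intro Y hY
          fin_cases Y
          · exact absurd rfl hY
          · show (4 : ℤ) = 3 ∨ (4 : ℤ) = 4
            omega
          · show (v - 4) % 2 = 1 ∧ v - 4 ≠ 1
            omega
          · show (v + 4) % 2 = 1 ∧ v + 4 ≠ 3
            omega
    · -- row
      rcases Int.emod_two_eq_zero_or_one v with hv | hv
      · refine ⟨(5, v), ?_, rfl, ?_⟩
        · rw [mem_board]
          show (1 : ℤ) ≤ 5 ∧ (5 : ℤ) ≤ n ∧ 1 ≤ v ∧ v ≤ n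
          omega
        · intro Y hY
          fin_cases Y
          · show (5 : ℤ) = 4 ∨ (5 : ℤ) = 5
            omega
          · exact absurd rfl hY
          · show (5 - v) % 2 = 1 ∧ 5 - v ≠ 1
            omega
          · show (5 + v) % 2 = 1 ∧ 5 + v ≠ 3
            omega
      · refine ⟨(4, v), ?_, rfl, ?_⟩
        · rw [mem_board]
          show (1 : ℤ) ≤ 4 ∧ (4 : ℤ) ≤ n ∧ 1 ≤ v ∧ v ≤ n
          omega
        · intro Y hY
          fin_cases Y
          · show (4 : ℤ) = 4 ∨ (4 : ℤ) = 5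
            omega
          · exact absurd rfl hY
          · show (4 - v) % 2 = 1 ∧ 4 - v ≠ 1
            omega
          · show (4 + v) % 2 = 1 ∧ 4 + v ≠ 3
            omega
  z_mem := by
    intro z hz
    rw [mem_board]
    simp only [stA_Z, Finset.mem_insert, Finset.mem_singleton] at hz
    rcases hz with rfl | rfl | rfl | rfl
    · show (1 : ℤ) ≤ 1 ∧ (1 : ℤ) ≤ n ∧ (1 : ℤ) ≤ 1 ∧ (1 : ℤ) ≤ n
      omega
    · show (1 : ℤ) ≤ 2 ∧ (2 : ℤ) ≤ n ∧ (1 : ℤ) ≤ 2 ∧ (2 : ℤ) ≤ n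
      omega
    · show (1 : ℤ) ≤ 3 ∧ (3 : ℤ) ≤ n ∧ (1 : ℤ) ≤ 5 ∧ (5 : ℤ) ≤ n
      omega
    · show (1 : ℤ) ≤ 2 ∧ (2 : ℤ) ≤ n ∧ (1 : ℤ) ≤ 1 ∧ (1 : ℤ) ≤ n
      omega
  z_oth := by
    intro z hz Y
    rw [stA_mem_own]
    simp only [stA_Z, Finset.mem_insert, Finset.mem_singleton] at hz
    rcases hz with rfl | rfl | rfl | rfl
    · fin_cases Y
      · exact ⟨fun h => absurd h.2.1 (by decide), by show ¬ ((1 : ℤ) = 4 ∨ (1 : ℤ) = 5); omega⟩
      · exact ⟨fun h => absurd h.2.1 (by decide), by show ¬ ((1 : ℤ) = 3 ∨ (1 : ℤ) = 4); omega⟩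
      · exact ⟨fun h => absurd h.2.1 (by decide),
          by show ¬ (((1 : ℤ) - 1) % 2 = 1 ∧ (1 : ℤ) - 1 ≠ 1); omega⟩
      · exact ⟨fun h => absurd h.2.1 (by decide),
          by show ¬ (((1 : ℤ) + 1) % 2 = 1 ∧ (1 : ℤ) + 1 ≠ 3); omega⟩
    · fin_cases Y
      · exact ⟨fun h => absurd h.2.1 (by decide), by show ¬ ((2 : ℤ) = 4 ∨ (2 : ℤ) = 5); omega⟩
      · exact ⟨fun h => absurd h.2.1 (by decide), by show ¬ ((2 : ℤ) = 3 ∨ (2 : ℤ) = 4); omega⟩
      · exact ⟨fun h => absurd h.2.1 (by decide),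
          by show ¬ (((2 : ℤ) - 2) % 2 = 1 ∧ (2 : ℤ) - 2 ≠ 1); omega⟩
      · exact ⟨fun h => absurd h.2.1 (by decide),
          by show ¬ (((2 : ℤ) + 2) % 2 = 1 ∧ (2 : ℤ) + 2 ≠ 3); omega⟩
    · fin_cases Y
      · exact ⟨fun h => absurd h.2.1 (by decide), by show ¬ ((3 : ℤ) = 4 ∨ (3 : ℤ) = 5); omega⟩
      · exact ⟨fun h => absurd h.2.1 (by decide), by show ¬ ((5 : ℤ) = 3 ∨ (5 : ℤ) = 4); omega⟩
      · exact ⟨fun h => absurd h.2.1 (by decide),
          by show ¬ (((3 : ℤ) - 5) % 2 = 1 ∧ (3 : ℤ) - 5 ≠ 1); omega⟩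
      · refine ⟨?_, by show ¬ (((3 : ℤ) + 5) % 2 = 1 ∧ (3 : ℤ) + 5 ≠ 3); omega⟩
        rintro ⟨h | h, _⟩
        · exact absurd h (by decide)
        · exact absurd h (by decide)
    · fin_cases Y
      · exact ⟨fun h => absurd h.2.1 (by decide), by show ¬ ((2 : ℤ) = 4 ∨ (2 : ℤ) = 5); omega⟩
      · exact ⟨fun h => absurd h.2.1 (by decide), by show ¬ ((1 : ℤ) = 3 ∨ (1 : ℤ) = 4); omega⟩
      · exact ⟨fun h => absurd h.2.1 (by decide),
          by show ¬ (((2 : ℤ) - 1) % 2 = 1 ∧ (2 : ℤ) - 1 ≠ 1); omega⟩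
      · exact ⟨fun h => absurd h.2.1 (by decide),
          by show ¬ (((2 : ℤ) + 1) % 2 = 1 ∧ (2 : ℤ) + 1 ≠ 3); omega⟩
  cover := by
    rintro ⟨x, y⟩ hv
    rw [mem_board] at hv
    have h1 : (1 : ℤ) ≤ x := hv.1
    have h2 : x ≤ n := hv.2.1
    have h3 : (1 : ℤ) ≤ y := hv.2.2.1
    have h4 : y ≤ n := hv.2.2.2
    by_cases hx : 6 ≤ x
    · left
      refine ⟨0, ?_⟩
      rw [stA_mem_own]
      exact ⟨Or.inl rfl, hx, h2⟩
    by_cases hy : 6 ≤ y
    · left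
      refine ⟨1, ?_⟩
      rw [stA_mem_own]
      exact ⟨Or.inr rfl, hy, h4⟩
    right
    have m1 : ((1, 1) : Sq) ∈ stA_Z := by decide
    have m2 : ((2, 2) : Sq) ∈ stA_Z := by decide
    have m3 : ((3, 5) : Sq) ∈ stA_Z := by decide
    have m4 : ((2, 1) : Sq) ∈ stA_Z := by decide
    by_cases c1 : x = 1
    · exact ⟨_, m1, 0, c1.symm⟩
    by_cases c2 : x = 2
    · exact ⟨_, m2, 0, c2.symm⟩
    by_cases c3 : x = 3
    · exact ⟨_, m3, 0, c3.symm⟩
    by_cases d1 : y = 1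
    · exact ⟨_, m1, 1, d1.symm⟩
    by_cases d2 : y = 2
    · exact ⟨_, m2, 1, d2.symm⟩
    by_cases d5 : y = 5
    · exact ⟨_, m3, 1, d5.symm⟩
    have hx' : x = 4 ∨ x = 5 := by omega
    have hy' : y = 3 ∨ y = 4 := by omega
    rcases hx' with rfl | rfl <;> rcases hy' with rfl | rfl
    · exact ⟨_, m4, 2, rfl⟩
    · exact ⟨_, m1, 2, rfl⟩
    · exact ⟨_, m3, 3, rfl⟩
    · exact ⟨_, m4, 2, rfl⟩
  u_mem := by
    intro u hu
    rw [stA_mem_Phi] at hu
    rw [mem_board]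
    omega
  u_own := by
    intro u hu
    rw [stA_mem_Phi] at hu
    rw [stA_mem_own, stA_mem_own]
    exact ⟨⟨Or.inl rfl, by omega, by omega⟩, ⟨Or.inr rfl, by omega, by omega⟩⟩
  u_oth := by
    intro u hu Y h0 h1
    rw [stA_mem_Phi] at hu
    rw [stA_mem_own]
    refine ⟨fun h => h.1.elim h0 h1, ?_⟩
    fin_cases Y
    · exact absurd rfl h0
    · exact absurd rfl h1
    · show ¬ ((u.1 - u.2) % 2 = 1 ∧ u.1 - u.2 ≠ 1)
      omega
    · show ¬ ((u.1 + u.2) % 2 = 1 ∧ u.1 + u.2 ≠ 3)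
      omega
  u_inj := by
    intro u hu u' hu' hne
    rw [stA_mem_Phi] at hu hu'
    constructor
    · intro h
      exact hne (Prod.ext h (by omega))
    · intro h
      exact hne (Prod.ext (by omega) h)
  sub := by
    intro u hu
    rw [Finset.mem_singleton] at hu
    rw [stA_mem_Phi, hu]
    show n = n ∧ 6 ≤ n ∧ n ≤ n
    omega
  H := by
    rintro u hu - ⟨x, y⟩ hv hl
    rw [stA_mem_Phi] at hu
    rw [mem_board] at hv
    have h1 : (1 : ℤ) ≤ x := hv.1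
    have h2 : x ≤ n := hv.2.1
    have h3 : (1 : ℤ) ≤ y := hv.2.2.1
    have h4 : y ≤ n := hv.2.2.2
    rcases hl with hl | hl
    · right
      right
      refine ⟨(n, n), Finset.mem_singleton_self _, 2, ?_⟩
      have hl' : x - y = u.1 - u.2 := hl
      show n - n = x - y
      omega
    · left
      have hl' : x + y = u.1 + u.2 := hl
      by_cases hx : 6 ≤ x
      · refine ⟨0, ?_⟩
        rw [stA_mem_own]
        exact ⟨Or.inl rfl, hx, h2⟩
      · refine ⟨1, ?_⟩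
        rw [stA_mem_own]
        exact ⟨Or.inr rfl, by show 6 ≤ y; omega, h4⟩

theorem p_stA (h1 : S_core) : S_stA := by
  intro n k hn hk hk2
  have hcI : (Finset.Icc (6 : ℤ) (n : ℤ)).card = n - 5 := by
    rw [Int.card_Icc]
    omega
  have hc1 : (stA_own (n : ℤ)).card = 2 * (n - 5) := by
    unfold stA_own
    rw [Finset.card_union_of_disjoint, Finset.card_image_of_injective, Finset.card_image_of_injective,
      hcI]
    · ring
    · intro a b hab
      exact (Prod.mk.inj hab).2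
    · intro a b hab
      exact (Prod.mk.inj hab).2
    · rw [Finset.disjoint_left]
      intro a ha ha'
      rw [Finset.mem_image] at ha ha'
      obtain ⟨v, _, rfl⟩ := ha
      obtain ⟨w, _, hw⟩ := ha'
      exact absurd (Prod.mk.inj hw).1 (by decide)
  have hc2 : (stA_Phi (n : ℤ)).card = n - 5 := by
    unfold stA_Phi
    rw [Finset.card_image_of_injective, hcI]
    intro a b hab
    exact (Prod.mk.inj hab).2
  have hc3 : stA_Z.card = 4 := by decide
  have hc4 : ({((n : ℤ), (n : ℤ))} : Finset Sq).card = 1 := Finset.card_singleton _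
  have hcfg := stA_cfg (n : ℤ) (by exact_mod_cast hn)
  exact h1 _ _ _ _ _ _ _ hcfg k (by rw [hc1, hc2, hc3]; omega) (by rw [hc1, hc4]; omega)

end Pool.Agent.MP_b8d9b4_co.Top
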