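import Pool.Agent.Lib.MP_b8d9b4_co.Top.Stm

/-!
# MP_b8d9b4_co: the upper bound for irredundant sets of the queens graph
-/

set_option autoImplicit false

namespace Pool.Agent.MP_b8d9b4_co.Top

/-- the value of the line of type `t` through `v` -/
private def up_lv {n : ℕ} (t : Fin 4) (v : Fin n × Fin n) : ℕ :=
  match t with
  | 0 => v.2.val
  | 1 => v.1.val
  | 2 => v.1.val + (n - 1) - v.2.val
  | 3 => v.1.val + v.2.val

/-- the number of the line of type `t` through `v` -/
private def up_code {n : ℕ} (t : Fin 4) (v : Fin n × Fin n) : ℕ :=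
  match t with
  | 0 => v.2.val
  | 1 => n + v.1.val
  | 2 => 2 * n + (v.1.val + (n - 1) - v.2.val)
  | 3 => 4 * n - 1 + (v.1.val + v.2.val)

private theorem up_lt {n : ℕ} (t : Fin 4) (v : Fin n × Fin n) : up_code t v < 6 * n - 2 := by
  have h1 := v.1.isLt
  have h2 := v.2.isLt
  fin_cases t
  · change v.2.val < _
    omega
  · change n + v.1.val < _
    omega
  · change 2 * n + (v.1.val + (n - 1) - v.2.val) < _
    omega
  · change 4 * n - 1 + (v.1.val + v.2.val) < _
    omega

private theorem up_inj {n : ℕ} {t s : Fin 4} {v u : Fin n × Fin n}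
    (h : up_code t v = up_code s u) : t = s ∧ up_lv t v = up_lv t u := by
  have h1 := v.1.isLt
  have h2 := v.2.isLt
  have h3 := u.1.isLt
  have h4 := u.2.isLt
  have e0 : ∀ x : Fin n × Fin n, up_code 0 x = x.2.val := fun _ => rfl
  have e1 : ∀ x : Fin n × Fin n, up_code 1 x = n + x.1.val := fun _ => rfl
  have e2 : ∀ x : Fin n × Fin n, up_code 2 x = 2 * n + (x.1.val + (n - 1) - x.2.val) :=
    fun _ => rfl
  have e3 : ∀ x : Fin n × Fin n, up_code 3 x = 4 * n - 1 + (x.1.val + x.2.val) := fun _ => rfl
  have g0 : ∀ x : Fin n × Fin n, up_lv 0 x = x.2.val := fun _ => rfl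
  have g1 : ∀ x : Fin n × Fin n, up_lv 1 x = x.1.val := fun _ => rfl
  have g2 : ∀ x : Fin n × Fin n, up_lv 2 x = x.1.val + (n - 1) - x.2.val := fun _ => rfl
  have g3 : ∀ x : Fin n × Fin n, up_lv 3 x = x.1.val + x.2.val := fun _ => rfl
  have hf : ∀ x : Fin 4, x = 0 ∨ x = 1 ∨ x = 2 ∨ x = 3 := by decide
  have ht := hf t
  have hs := hf s
  rcases ht with rfl | rfl | rfl | rfl <;> rcases hs with rfl | rfl | rfl | rfl <;>
    simp only [e0, e1, e2, e3] at h <;>
    first
    | (refine ⟨rfl, ?_⟩
       simp only [g0, g1, g2, g3]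
       omega)
    | (exfalso
       omega)

/-- two squares on a common line are equal or adjacent -/
private theorem up_adj {n : ℕ} {t : Fin 4} {u w : Fin n × Fin n} (h : up_lv t u = up_lv t w) :
    InNbhd (queensGraph n) u w := by
  have h1 := u.1.isLt
  have h2 := u.2.isLt
  have h3 := w.1.isLt
  have h4 := w.2.isLt
  by_cases he : w = u
  · exact Or.inl he
  · right
    refine ⟨fun e => he e.symm, ?_⟩
    fin_cases t
    · right
      left
      exact Fin.ext h
    · left
      exact Fin.ext h
    · right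
      right
      change u.1.val + (n - 1) - u.2.val = w.1.val + (n - 1) - w.2.val at h
      have : ((u.1.val : ℕ) : ℤ) - ((w.1.val : ℕ) : ℤ) = ((u.2.val : ℕ) : ℤ) - ((w.2.val : ℕ) : ℤ) := by
        omega
      rw [this]
    · right
      right
      change u.1.val + u.2.val = w.1.val + w.2.val at h
      have : ((u.1.val : ℕ) : ℤ) - ((w.1.val : ℕ) : ℤ) =
          -(((u.2.val : ℕ) : ℤ) - ((w.2.val : ℕ) : ℤ)) := by
        omega
      rw [this, abs_neg]

/-- adjacent squares are on a common line -/
private theorem up_line {n : ℕ} {v w : Fin n × Fin n} (h : (queensGraph n).Adj v w) :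
    ∃ t, up_lv t v = up_lv t w := by
  have h1 := v.1.isLt
  have h2 := v.2.isLt
  have h3 := w.1.isLt
  have h4 := w.2.isLt
  obtain ⟨-, h | h | h⟩ := h
  · exact ⟨1, congrArg Fin.val h⟩
  · exact ⟨0, congrArg Fin.val h⟩
  · rcases abs_eq_abs.mp h with h | h
    · refine ⟨2, ?_⟩
      change v.1.val + (n - 1) - v.2.val = w.1.val + (n - 1) - w.2.val
      omega
    · refine ⟨3, ?_⟩
      change v.1.val + v.2.val = w.1.val + w.2.val
      omega

/-- The upper bound for irredundant sets. -/
theorem p_up : S_up := by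
  intro n S hS
  classical
  have h1 : ∀ v ∈ S, ∃ t : Fin 4, ∀ u ∈ S, up_lv t u = up_lv t v → u = v := by
    intro v hv
    obtain ⟨w, hw, hp⟩ := hS v hv
    rcases hw with hw | hw
    · refine ⟨0, fun u hu h => ?_⟩
      by_contra hne
      refine hp u hu hne ?_
      rw [hw]
      exact up_adj h
    · obtain ⟨t, ht⟩ := up_line hw
      refine ⟨t, fun u hu h => ?_⟩
      by_contra hne
      exact hp u hu hne (up_adj (h.trans ht))
  choose! t ht using h1
  have h2 : S.card ≤ (Finset.range (6 * n - 2)).card := by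
    refine Finset.card_le_card_of_injOn (fun v => up_code (t v) v) ?_ ?_
    · intro v _
      rw [Finset.mem_coe, Finset.mem_range]
      exact up_lt _ _
    · intro v hv u hu h
      obtain ⟨-, h4⟩ := up_inj h
      exact (ht v hv u hu h4.symm).symm
  rwa [Finset.card_range] at h2

end Pool.Agent.MP_b8d9b4_co.Top
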